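import Pool.Agent.Lib.MP_e486a8_co.Main

/-!
Counting factors.
-/

namespace Pool.Agent.Lib.MP_e486a8_co

open Finset

open Classical in
/-- The factors of length `L` that occur from time `N` on. -/
noncomputable def fac (b : ℕ → Bool) (N L : ℕ) : Finset (Fin L → Bool) :=
  univ.filter fun w => ∃ n, N ≤ n ∧ ∀ k : Fin L, w k = b (n + k)

variable {N : ℕ} {p : ℕ → ℤ} {b : ℕ → Bool}

theorem mem_fac {L : ℕ} {w : Fin L → Bool} :
    w ∈ fac b N L ↔ ∃ n, N ≤ n ∧ ∀ k : Fin L, w k = b (n + k) := by simp [fac]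

theorem fac_add (A B : ℕ) : (fac b N (A + B)).card ≤ (fac b N A).card * (fac b N B).card := by
  rw [← card_product]
  refine card_le_card_of_injOn (fun w => (fun k => w (Fin.castAdd B k), fun k => w (Fin.natAdd A k)))
    (fun w hw => ?_) fun w _ w' _ h => ?_
  · obtain ⟨n, h1, h2⟩ := mem_fac.1 hw
    simp only [coe_product, Set.mem_prod, mem_coe, mem_fac]
    exact ⟨⟨n, h1, fun k => h2 _⟩, n + A, by omega, fun k => by rw [h2, add_assoc]; rfl⟩
  · funext k
    refine Fin.addCases (fun i => ?_) (fun i => ?_) k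
    · exact congrFun (congrArg Prod.fst h) i
    · exact congrFun (congrArg Prod.snd h) i

theorem fac_le (L : ℕ) : (fac b N L).card ≤ 2 ^ L :=
  (card_le_univ _).trans (by simp)

theorem fac_growth {L : ℕ} (h : (fac b N L).card ^ 2 < 2 ^ L) : ∃ C θ : ℝ, 0 < C ∧ 0 ≤ θ ∧ θ < 1 ∧
    ∀ k c, ((fac b N (2 * k + c)).card : ℝ) ≤ C * 2 ^ c * (2 * θ) ^ k := by
  have q1 : 1 ≤ (fac b N L).card := card_pos.2 ⟨fun k => b (N + k), mem_fac.2 ⟨N, le_rfl, by simp⟩⟩
  have L0 : L ≠ 0 := by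
    rintro rfl
    nlinarith
  set q := (fac b N L).card with hq
  have a1 : ∀ j s, (fac b N (L * j + s)).card ≤ q ^ j * 2 ^ s := by
    intro j s
    induction j with
    | zero => simpa using fac_le (b := b) (N := N) (L * 0 + s)
    | succ j ih =>
      rw [show L * (j + 1) + s = L + (L * j + s) by ring, pow_succ', mul_assoc]
      exact (fac_add _ _).trans (Nat.mul_le_mul_left _ ih)
  set l : ℝ := (q : ℝ) ^ (L : ℝ)⁻¹ with hl
  have l1 : l ^ L = q := Real.rpow_inv_natCast_pow (Nat.cast_nonneg _) L0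
  have l2 : 1 ≤ l := Real.one_le_rpow (by exact_mod_cast q1) (by positivity)
  have l3 : l ^ 2 < 2 := by
    refine lt_of_pow_lt_pow_left₀ L (by norm_num) ?_
    rw [← pow_mul, mul_comm, pow_mul, l1]
    exact_mod_cast h
  refine ⟨2 ^ L, l ^ 2 / 2, by positivity, by positivity, by linarith, fun k c => ?_⟩
  have a2 := a1 ((2 * k) / L) ((2 * k) % L)
  rw [Nat.div_add_mod] at a2
  have a3 : (fac b N (2 * k + c)).card ≤ q ^ (2 * k / L) * 2 ^ L * 2 ^ c :=
    (fac_add _ _).trans (Nat.mul_le_mul (a2.trans (Nat.mul_le_mul_left _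
      (Nat.pow_le_pow_right (by norm_num) (Nat.mod_lt _ (by omega)).le))) (fac_le c))
  have a4 : (q : ℝ) ^ (2 * k / L) ≤ l ^ (2 * k) := by
    rw [← l1, ← pow_mul]
    exact pow_le_pow_right₀ l2 (Nat.mul_div_le _ _)
  calc _ ≤ (q : ℝ) ^ (2 * k / L) * 2 ^ L * 2 ^ c := by exact_mod_cast a3
    _ ≤ l ^ (2 * k) * 2 ^ L * 2 ^ c := by gcongr
    _ = _ := by rw [mul_div_cancel₀ _ (by norm_num : (2 : ℝ) ≠ 0), pow_mul]; ring

theorem count (O : Orb N p b) {m k0 : ℕ} (hk : 1 ≤ k0) (hN : N ≤ 2 ^ m)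
    (hL : 2 * m + (2 ^ (k0 + 1) + 12) ≤ 2 ^ m) :
    2 ^ m ≤ (fac b N (2 * m + (2 ^ (k0 + 1) + 12))).card +
      ∑ k ∈ Ico k0 (m + 1), (fac b N (2 * k + 4)).card * 2 ^ (m + 1 - k) := by
  classical
  set c := 2 ^ (k0 + 1) + 12 with hc
  let S := Ico (2 ^ m) (2 ^ (m + 1))
  let B := S.filter fun n => ¬ ∃ d r, Res b m c n d r
  let A : ℕ → Finset ℕ := fun k => S.filter fun n =>
    ∃ d r, Res b m c n d r ∧ 2 ^ k ≤ d ∧ d < 2 ^ (k + 1)
  have a1 : S ⊆ B ∪ (Ico k0 (m + 1)).biUnion A := by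
    intro n hn
    simp only [mem_union, mem_biUnion, B, A, mem_filter, hn, true_and, mem_Ico]
    refine or_iff_not_imp_left.2 fun h => ?_
    obtain ⟨d, r, R⟩ := not_not.1 h
    have hn' := mem_Ico.1 hn
    have b1 := R.big O (by omega) hn'.2 hL
    have b2 := R.pos
    refine ⟨Nat.log 2 d, ⟨(Nat.le_log_iff_pow_le (by norm_num) (by omega)).2 ?_,
      (Nat.log_lt_iff_lt_pow (by norm_num) (by omega)).2 R.lt⟩, d, r, R,
      Nat.pow_log_le_self 2 (by omega), Nat.lt_pow_succ_log_self (by norm_num) d⟩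
    rw [hc, pow_succ] at b1
    omega
  have a2 : B.card ≤ (fac b N (2 * m + c)).card := by
    refine card_le_card_of_injOn (fun n k => b (n + k)) (fun n hn => ?_) fun n hn n' hn' h => ?_
    · simp only [B, S, coe_filter, mem_Ico, Set.mem_ofPred_eq] at hn
      exact mem_fac.2 ⟨n, by omega, fun _ => rfl⟩
    · simp only [B, S, coe_filter, mem_Ico, Set.mem_ofPred_eq] at hn hn'
      have hb : ∀ i < 2 * m + c, b (n + i) = b (n' + i) := fun i hi => congrFun h ⟨i, hi⟩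
      rcases lt_trichotomy n n' with e | e | e
      · exact absurd (res_of_repeat O (by omega) e hn.1.1 hn'.1.2 hL hb) hn.2
      · exact e
      · exact absurd (res_of_repeat O (by omega) e hn'.1.1 hn.1.2 hL
          fun i hi => (hb i hi).symm) hn'.2
  have a3 : ∀ k ∈ Ico k0 (m + 1), (A k).card ≤ (fac b N (2 * k + 4)).card * 2 ^ (m + 1 - k) := by
    intro k hk'
    rw [mem_Ico] at hk'
    obtain ⟨j, rfl⟩ : ∃ j, k = j + 1 := ⟨k - 1, by omega⟩
    rw [← card_range (2 ^ (m + 1 - (j + 1))), ← card_product]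
    refine card_le_card_of_injOn (fun n => (fun i => b (n + i), (n - 2 ^ m) / 2 ^ j))
      (fun n hn => ?_) fun n hn n' hn' h => ?_
    · simp only [A, S, coe_filter, mem_Ico, Set.mem_ofPred_eq] at hn
      simp only [coe_product, Set.mem_prod, mem_coe, mem_fac, mem_range]
      refine ⟨⟨n, by omega, fun _ => rfl⟩, Nat.div_lt_of_lt_mul ?_⟩
      rw [← pow_add, show j + (m + 1 - (j + 1)) = m by omega]
      have := hn.1.2
      rw [pow_succ] at this
      omega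
    · simp only [A, S, coe_filter, mem_Ico, Set.mem_ofPred_eq] at hn hn'
      obtain ⟨⟨s1, s2⟩, d, r, R, h1, h2⟩ := hn
      obtain ⟨⟨s1', s2'⟩, d', r', R', h1', h2'⟩ := hn'
      have b1 := R.dvd O (by omega) (by omega) s2 s2' hL (Nat.le_add_left _ _) R' (by omega) h1 h2 h1' h2'
        fun i hi => congrFun (congrArg Prod.fst h) ⟨i, hi⟩
      have b2 : (n - 2 ^ m) / 2 ^ j = (n' - 2 ^ m) / 2 ^ j := congrArg Prod.snd h
      have b3 := Nat.div_add_mod (n - 2 ^ m) (2 ^ j)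
      have b4 := Nat.div_add_mod (n' - 2 ^ m) (2 ^ j)
      have b5 := Nat.mod_lt (n - 2 ^ m) (Nat.two_pow_pos j)
      have b6 := Nat.mod_lt (n' - 2 ^ m) (Nat.two_pow_pos j)
      rw [b2] at b3
      rw [pow_succ] at h1
      generalize 2 ^ j * ((n' - 2 ^ m) / 2 ^ j) = z at b3 b4
      generalize (n - 2 ^ m) % 2 ^ j = z1 at b3 b5
      generalize (n' - 2 ^ m) % 2 ^ j = z2 at b4 b6
      have := Int.eq_zero_of_abs_lt_dvd b1 (by rw [abs_lt]; omega)
      omega
  have a4 : S.card = 2 ^ m := by simp [S, pow_succ]; omega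
  rw [← a4]
  exact (card_le_card a1).trans ((card_union_le _ _).trans
    (Nat.add_le_add a2 (card_biUnion_le.trans (sum_le_sum a3))))

theorem entropy (O : Orb N p b) (L : ℕ) : 2 ^ L ≤ (fac b N L).card ^ 2 := by
  by_contra h
  obtain ⟨C, θ, c0, t0, t1, hC⟩ := fac_growth (not_le.1 h)
  have lim : ∀ a : ℝ, ∀ᶠ k : ℕ in Filter.atTop, a * θ ^ k < 1 / 4 := fun a => by
    have := (tendsto_pow_atTop_nhds_zero_of_lt_one t0 t1).const_mul a
    rw [mul_zero] at this
    exact this.eventually (gt_mem_nhds (by norm_num))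
  obtain ⟨k0, k1, k2⟩ := ((lim (32 * C / (1 - θ))).and (Filter.eventually_ge_atTop 1)).exists
  obtain ⟨m, m1, m2⟩ := ((lim (C * 2 ^ (2 ^ (k0 + 1) + 12))).and
    (Filter.eventually_ge_atTop (N + (2 ^ (k0 + 1) + 12)))).exists
  have m0 := Nat.two_pow_pos k0
  have m3 : 3 * m ≤ 2 ^ m := by
    obtain ⟨j, rfl⟩ : ∃ j, m = j + 4 := ⟨m - 4, by omega⟩
    have := @Nat.lt_two_pow_self j
    rw [pow_add]
    omega
  have a1 := (Nat.cast_le (α := ℝ)).2 (count O k2 (m := m) (by omega) (by omega))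
  push_cast at a1
  have a2 := hC m (2 ^ (k0 + 1) + 12)
  have a3 : ∑ k ∈ Ico k0 (m + 1), ((fac b N (2 * k + 4)).card : ℝ) * 2 ^ (m + 1 - k) ≤
      32 * C * 2 ^ m * ∑ k ∈ Ico k0 (m + 1), θ ^ k := by
    rw [mul_sum]
    refine sum_le_sum fun k hk => ?_
    have e : (2 : ℝ) ^ k * 2 ^ (m + 1 - k) = 2 ^ m * 2 := by
      rw [← pow_add, ← pow_succ]; congr 1; have := mem_Ico.1 hk; omega
    refine (mul_le_mul_of_nonneg_right (hC k 4) (by positivity)).trans (le_of_eq ?_)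
    rw [mul_pow]
    linear_combination (C * 2 ^ 4 * θ ^ k) * e
  have a4 := geom_sum_Ico_le_of_lt_one (m := k0) (n := m + 1) t0 t1
  have a5 := mul_le_mul_of_nonneg_left a4 (by positivity : 0 ≤ 32 * C * 2 ^ m)
  have a6 : 32 * C * 2 ^ m * (θ ^ k0 / (1 - θ)) = 32 * C / (1 - θ) * θ ^ k0 * 2 ^ m := by ring
  rw [mul_pow, mul_left_comm, mul_comm ((2 : ℝ) ^ m)] at a2
  have hM : (0 : ℝ) < 2 ^ m := by positivity
  have a7 := mul_lt_mul_of_pos_right k1 hM
  have a8 := mul_lt_mul_of_pos_right m1 hM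
  linarith

end Pool.Agent.Lib.MP_e486a8_co
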