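import Pool.Agent.Lib.MP_e486a8_co.Main

/-!
Frequency form of the entropy bound: windows of small cost are rare.
-/

namespace Pool.Agent.Lib.MP_e486a8_co

open Finset

variable {N : ℕ} {p : ℕ → ℤ} {b : ℕ → Bool}

/-- The block of length `L` at time `n`. -/
def blk (b : ℕ → Bool) (L n : ℕ) : Fin L → Bool := fun k => b (n + k)

theorem kraft {L j D : ℕ} {q : (Fin L → Bool) → ℝ} (q0 : ∀ w, 0 ≤ q w) (q1 : ∑ w, q w ≤ 1)
    {ρ : ℝ} (S : Finset ℕ) (g : ℕ → ℕ) (hg : ∀ n ∈ S, g n < D)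
    (hS : ∀ n ∈ S, ρ ≤ ∏ i ∈ range j, q (blk b L (n + i * L)))
    (hi : ∀ n ∈ S, ∀ n' ∈ S, (∀ i < j * L + L, b (n + i) = b (n' + i)) → g n = g n' → n = n') :
    S.card * ρ ≤ 2 ^ L * D := by
  classical
  let φ : ℕ → (Fin j → Fin L → Bool) × (Fin L → Bool) × ℕ := fun n =>
    (fun i => blk b L (n + i * L), blk b L (n + j * L), g n)
  let wt : (Fin j → Fin L → Bool) × (Fin L → Bool) × ℕ → ℝ := fun x => ∏ i, q (x.1 i)
  have inj : Set.InjOn φ S := by
    intro n hn n' hn' h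
    refine hi n hn n' hn' (fun i hi' => ?_) (congrArg (fun x => x.2.2) h)
    have L0 : 0 < L := by
      rcases Nat.eq_zero_or_pos L with rfl | h0
      · omega
      · exact h0
    have e := Nat.div_add_mod' i L
    have e2 := Nat.mod_lt i L0
    have e3 : i / L < j + 1 := Nat.div_lt_of_lt_mul (by rw [mul_add, mul_comm L j]; omega)
    rcases Nat.lt_succ_iff_lt_or_eq.1 e3 with e4 | e4
    · have := congrFun (congrFun (congrArg Prod.fst h) ⟨i / L, e4⟩) ⟨i % L, e2⟩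
      simpa only [φ, blk, add_assoc, e] using this
    · have := congrFun (congrArg (fun x => x.2.1) h) ⟨i % L, e2⟩
      rw [e4] at e
      simpa only [φ, blk, add_assoc, e] using this
  have w0 : ∀ x, 0 ≤ wt x := fun x => prod_nonneg fun i _ => q0 _
  calc (S.card : ℝ) * ρ = ∑ _n ∈ S, ρ := by simp
    _ ≤ ∑ n ∈ S, wt (φ n) := sum_le_sum fun n hn => by
        refine (hS n hn).trans (le_of_eq ?_)
        exact (Fin.prod_univ_eq_prod_range (fun i => q (blk b L (n + i * L))) j).symm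
    _ = ∑ x ∈ S.image φ, wt x := (sum_image inj).symm
    _ ≤ ∑ x ∈ univ ×ˢ univ ×ˢ range D, wt x := by
        refine sum_le_sum_of_subset_of_nonneg (fun x hx => ?_) fun x _ _ => w0 x
        obtain ⟨n, hn, rfl⟩ := mem_image.1 hx
        simpa [φ] using hg n hn
    _ = (∑ w, q w) ^ j * (2 ^ L * D) := by
        rw [sum_product, Fintype.sum_pow, sum_mul]
        refine sum_congr rfl fun x _ => ?_
        simp [wt, mul_comm]
    _ ≤ 1 * (2 ^ L * D) := by
        gcongr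
        exact pow_le_one₀ (sum_nonneg fun w _ => q0 w) q1
    _ = _ := one_mul _

theorem countG (O : Orb N p b) {m k0 : ℕ} (hk : 1 ≤ k0) (hN : N ≤ 2 ^ m)
    (hL : 2 * m + (2 ^ (k0 + 1) + 12) ≤ 2 ^ m) (G : Finset ℕ) (hG : G ⊆ Ico (2 ^ m) (2 ^ (m + 1)))
    (F : ℕ → ℝ) (hF : ∀ T ≤ 2 * m + (2 ^ (k0 + 1) + 12), ∀ S ⊆ G, ∀ (D : ℕ) (g : ℕ → ℕ),
      (∀ n ∈ S, g n < D) →
      (∀ n ∈ S, ∀ n' ∈ S, (∀ i < T, b (n + i) = b (n' + i)) → g n = g n' → n = n') →
      (S.card : ℝ) ≤ F T * D) :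
    (G.card : ℝ) ≤ F (2 * m + (2 ^ (k0 + 1) + 12)) +
      ∑ k ∈ Ico k0 (m + 1), F (2 * k + 4) * 2 ^ (m + 1 - k) := by
  classical
  set c := 2 ^ (k0 + 1) + 12 with hc
  have c12 : 12 ≤ c := Nat.le_add_left _ _
  let B := G.filter fun n => ¬ ∃ d r, Res b m c n d r
  let A : ℕ → Finset ℕ := fun k => G.filter fun n =>
    ∃ d r, Res b m c n d r ∧ 2 ^ k ≤ d ∧ d < 2 ^ (k + 1)
  have a1 : G ⊆ B ∪ (Ico k0 (m + 1)).biUnion A := by
    intro n hn
    simp only [mem_union, mem_biUnion, B, A, mem_filter, hn, true_and, mem_Ico]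
    refine or_iff_not_imp_left.2 fun h => ?_
    obtain ⟨d, r, R⟩ := not_not.1 h
    have hn' := mem_Ico.1 (hG hn)
    have b1 := R.big O (by omega) hn'.2 hL
    have b2 := R.pos
    refine ⟨Nat.log 2 d, ⟨(Nat.le_log_iff_pow_le (by norm_num) (by omega)).2 ?_,
      (Nat.log_lt_iff_lt_pow (by norm_num) (by omega)).2 R.lt⟩, d, r, R,
      Nat.pow_log_le_self 2 (by omega), Nat.lt_pow_succ_log_self (by norm_num) d⟩
    rw [hc, pow_succ] at b1
    omega
  have a2 : (B.card : ℝ) ≤ F (2 * m + c) := by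
    have := hF (2 * m + c) le_rfl B (filter_subset _ _) 1 (fun _ => 0) (fun _ _ => one_pos)
      fun n hn n' hn' hb _ => by
        have h1 := mem_filter.1 hn
        have h2 := mem_filter.1 hn'
        have h3 := mem_Ico.1 (hG h1.1)
        have h4 := mem_Ico.1 (hG h2.1)
        rcases lt_trichotomy n n' with e | e | e
        · exact absurd (res_of_repeat O (by omega) e h3.1 h4.2 hL hb) h1.2
        · exact e
        · exact absurd (res_of_repeat O (by omega) e h4.1 h3.2 hL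
            fun i hi => (hb i hi).symm) h2.2
    simpa using this
  have a3 : ∀ k ∈ Ico k0 (m + 1), ((A k).card : ℝ) ≤ F (2 * k + 4) * 2 ^ (m + 1 - k) := by
    intro k hk'
    rw [mem_Ico] at hk'
    obtain ⟨j, rfl⟩ : ∃ j, k = j + 1 := ⟨k - 1, by omega⟩
    have := hF (2 * (j + 1) + 4) (by omega) (A (j + 1)) (filter_subset _ _) (2 ^ (m + 1 - (j + 1)))
      (fun n => (n - 2 ^ m) / 2 ^ j) (fun n hn => by
        refine Nat.div_lt_of_lt_mul ?_
        rw [← pow_add, show j + (m + 1 - (j + 1)) = m by omega]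
        have := (mem_Ico.1 (hG (mem_filter.1 hn).1)).2
        rw [pow_succ] at this
        omega) fun n hn n' hn' hb b2 => by
        obtain ⟨s0, d, r, R, h1, h2⟩ := mem_filter.1 hn
        obtain ⟨s0', d', r', R', h1', h2'⟩ := mem_filter.1 hn'
        obtain ⟨s1, s2⟩ := mem_Ico.1 (hG s0)
        obtain ⟨s1', s2'⟩ := mem_Ico.1 (hG s0')
        have b1 := R.dvd O (by omega) (by omega) s2 s2' hL c12 R' (by omega) h1 h2 h1' h2' hb
        have b3 := Nat.div_add_mod (n - 2 ^ m) (2 ^ j)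
        have b4 := Nat.div_add_mod (n' - 2 ^ m) (2 ^ j)
        have b5 := Nat.mod_lt (n - 2 ^ m) (Nat.two_pow_pos j)
        have b6 := Nat.mod_lt (n' - 2 ^ m) (Nat.two_pow_pos j)
        rw [b2] at b3
        rw [pow_succ] at h1
        generalize 2 ^ j * ((n' - 2 ^ m) / 2 ^ j) = z at b3 b4
        generalize (n - 2 ^ m) % 2 ^ j = z1 at b3 b5
        generalize (n' - 2 ^ m) % 2 ^ j = z2 at b4 b6
        have := Int.eq_zero_of_abs_lt_dvd b1 (by rw [abs_lt]; omega)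
        omega
    simpa using this
  have a4 : G.card ≤ B.card + ∑ k ∈ Ico k0 (m + 1), (A k).card :=
    (card_le_card a1).trans ((card_union_le _ _).trans (Nat.add_le_add_left card_biUnion_le _))
  have a5 := (Nat.cast_le (α := ℝ)).2 a4
  push_cast at a5
  exact a5.trans (add_le_add a2 (sum_le_sum a3))

/-- Times whose windows are cheap at every scale have small density in a dyadic block. -/
theorem rare (O : Orb N p b) {L : ℕ} (L0 : 0 < L) {σ : ℝ} (s1 : 1 ≤ σ) (s2 : σ ^ 2 < 2) {ε : ℝ}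
    (e0 : 0 < ε) : ∃ m0, ∀ m, m0 ≤ m → ∀ q : (Fin L → Bool) → ℝ, (∀ w, 0 ≤ q w) → ∑ w, q w ≤ 1 →
      ∀ G ⊆ Ico (2 ^ m) (2 ^ (m + 1)),
      (∀ n ∈ G, ∀ j ≤ 3 * m, 1 ≤ σ ^ (j * L) * ∏ i ∈ range j, q (blk b L (n + i * L))) →
      (G.card : ℝ) ≤ ε * 2 ^ m := by
  set θ := σ ^ 2 / 2 with hθ
  have t0 : 0 ≤ θ := by positivity
  have t1 : θ < 1 := by rw [hθ]; linarith
  have s3 : σ ≤ 2 := by nlinarith
  have lim : ∀ a : ℝ, ∀ᶠ k : ℕ in Filter.atTop, a * θ ^ k < ε / 2 := fun a => by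
    have := (tendsto_pow_atTop_nhds_zero_of_lt_one t0 t1).const_mul a
    rw [mul_zero] at this
    exact this.eventually (gt_mem_nhds (by positivity))
  set C : ℝ := 2 ^ L with hC
  have c0 : 0 < C := by positivity
  obtain ⟨k0, k1, k2⟩ := ((lim (32 * C / (1 - θ))).and (Filter.eventually_ge_atTop 1)).exists
  obtain ⟨m0, hm0⟩ := Filter.eventually_atTop.1 ((lim (C * 2 ^ (2 ^ (k0 + 1) + 12))).and
    (Filter.eventually_ge_atTop (N + (2 ^ (k0 + 1) + 12))))
  refine ⟨m0, fun m hm q q0 q1 G hG hq => ?_⟩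
  obtain ⟨m1, m2⟩ := hm0 m hm
  have m0 := Nat.two_pow_pos k0
  have m3 : 3 * m ≤ 2 ^ m := by
    obtain ⟨j, rfl⟩ : ∃ j, m = j + 4 := ⟨m - 4, by omega⟩
    have := @Nat.lt_two_pow_self j
    rw [pow_add]
    omega
  have a1 := countG O k2 (m := m) (by omega) (by omega) G hG (fun T => C * σ ^ T)
    fun T hT S hS D g hg hi => by
      have b0 : T / L ≤ T := Nat.div_le_self _ _
      have b1 : 0 < σ ^ (T / L * L) := by positivity
      have b2 := kraft (b := b) (j := T / L) q0 q1 (ρ := (σ ^ (T / L * L))⁻¹) S g hg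
        (fun n hn => by
          rw [inv_le_iff_one_le_mul₀' b1]
          exact hq n (hS hn) _ (by omega))
        fun n hn n' hn' hb => hi n hn n' hn' fun i hi' => hb i (by
          have := Nat.div_add_mod' T L
          have := Nat.mod_lt T L0
          omega)
      rw [mul_inv_le_iff₀ b1] at b2
      have b3 : σ ^ (T / L * L) ≤ σ ^ T := pow_le_pow_right₀ s1 (Nat.div_mul_le_self _ _)
      calc _ ≤ _ := b2
        _ ≤ 2 ^ L * D * σ ^ T := by gcongr
        _ = _ := by rw [hC]; ring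
  have hC' : ∀ k c : ℕ, C * σ ^ (2 * k + c) ≤ C * 2 ^ c * (2 * θ) ^ k := fun k c => by
    rw [hθ, mul_div_cancel₀ _ (by norm_num : (2 : ℝ) ≠ 0), pow_add, pow_mul, mul_assoc,
      mul_comm (2 ^ c)]
    gcongr
  have a2 := hC' m (2 ^ (k0 + 1) + 12)
  have a3 : ∑ k ∈ Ico k0 (m + 1), C * σ ^ (2 * k + 4) * 2 ^ (m + 1 - k) ≤
      32 * C * 2 ^ m * ∑ k ∈ Ico k0 (m + 1), θ ^ k := by
    rw [mul_sum]
    refine sum_le_sum fun k hk => ?_
    have e : (2 : ℝ) ^ k * 2 ^ (m + 1 - k) = 2 ^ m * 2 := by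
      rw [← pow_add, ← pow_succ]; congr 1; have := mem_Ico.1 hk; omega
    refine (mul_le_mul_of_nonneg_right (hC' k 4) (by positivity)).trans (le_of_eq ?_)
    rw [mul_pow]
    linear_combination (C * 2 ^ 4 * θ ^ k) * e
  have a4 := geom_sum_Ico_le_of_lt_one (m := k0) (n := m + 1) t0 t1
  have a5 := mul_le_mul_of_nonneg_left a4 (by positivity : 0 ≤ 32 * C * 2 ^ m)
  have a6 : 32 * C * 2 ^ m * (θ ^ k0 / (1 - θ)) = 32 * C / (1 - θ) * θ ^ k0 * 2 ^ m := by ring
  rw [mul_pow, mul_left_comm, mul_comm ((2 : ℝ) ^ m)] at a2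
  have hM : (0 : ℝ) < 2 ^ m := by positivity
  have a7 := mul_lt_mul_of_pos_right k1 hM
  have a8 := mul_lt_mul_of_pos_right m1 hM
  linarith

end Pool.Agent.Lib.MP_e486a8_co
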