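import Pool.Agent.Lib.MP_e486a8_co.Res

/-!
The itinerary has entropy at least one half.
-/

namespace Pool.Agent.Lib.MP_e486a8_co

open Finset

/-- The digit attached to a Boolean value. -/
def dig (x : Bool) : ℤ := if x then 0 else 1

theorem dig_cases (x : Bool) : dig x = 0 ∨ dig x = 1 := by cases x <;> simp [dig]

/-- An orbit from time `N` on. -/
structure Orb (N : ℕ) (p : ℕ → ℤ) (b : ℕ → Bool) : Prop where
  bd : ∀ m, N ≤ m → 1 ≤ p m ∧ p m ≤ 2 * m
  step : ∀ m, N ≤ m → p (m + 1) = 2 * p m - dig (b m) * (2 * m + 3)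

/-- The digits from time `n` on follow a rational with denominator `d`. -/
structure Res (b : ℕ → Bool) (m c n d : ℕ) (r : ℕ → ℤ) : Prop where
  cop : IsCoprime (r 0) d
  step : ∀ i < 2 * m + c, r (i + 1) = 2 * r i - d * dig (b (n + i))
  bd : |r (2 * m + c)| ≤ 6 * 2 ^ m
  pos : 0 < d
  lt : d < 2 ^ (m + 1)

/-- The defect. -/
def uu (p : ℕ → ℤ) (n d : ℕ) (r : ℕ → ℤ) (i : ℕ) : ℤ :=
  d * p (n + i) - (2 * ((n : ℤ) + i) + 1) * r i

variable {N m c n d : ℕ} {p r : ℕ → ℤ} {b : ℕ → Bool}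

theorem Res.range (R : Res b m c n d r) {i : ℕ} (hi : i ≤ 2 * m + c) :
    2 ^ (2 * m + c - i) * (-r i) ≤ 6 * 2 ^ m ∧ 2 ^ (2 * m + c - i) * (r i - d) ≤ 6 * 2 ^ m := by
  have hb := abs_le.1 R.bd
  have key : ∀ i < 2 * m + c, (2 : ℤ) ^ (2 * m + c - i) = 2 ^ (2 * m + c - (i + 1)) * 2 :=
    fun i hi => by rw [← pow_succ]; congr 1; omega
  constructor
  · simpa using back (w := fun i => -r i) (B := 0) (A := 6 * 2 ^ m) (fun i hi => by
      rw [key i hi, add_zero, mul_assoc, R.step i hi]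
      refine mul_le_mul_of_nonneg_left ?_ (by positivity)
      rcases dig_cases (b (n + i)) with e | e <;> rw [e] <;> omega) (by linarith [hb.1]) le_rfl i hi
  · simpa using back (w := fun i => r i - d) (B := 0) (A := 6 * 2 ^ m) (fun i hi => by
      rw [key i hi, add_zero, mul_assoc, R.step i hi]
      refine mul_le_mul_of_nonneg_left ?_ (by positivity)
      rcases dig_cases (b (n + i)) with e | e <;> rw [e] <;> omega)
      (by have := hb.2; omega) le_rfl i hi

theorem Res.abs_le (R : Res b m c n d r) {i : ℕ} (hi : i ≤ 2 * m + c) :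
    2 ^ (2 * m + c - i) * (|r i| - d) ≤ 6 * 2 ^ m := by
  have := R.range hi
  rcases abs_cases (r i) with e | e <;> rw [e.1]
  · exact this.2
  · exact le_trans (mul_le_mul_of_nonneg_left (by omega) (by positivity)) this.1

theorem Res.ustep (O : Orb N p b) (hN : N ≤ n) (R : Res b m c n d r) {i : ℕ} (hi : i < 2 * m + c) :
    uu p n d r (i + 1) = 2 * uu p n d r i - 4 * r i := by
  simp only [uu]
  rw [← add_assoc, O.step _ (by omega), R.step i hi]
  push_cast
  ring

theorem Res.ubd (O : Orb N p b) (hN : N ≤ n) (hn : n < 2 ^ (m + 1)) (hL : 2 * m + c ≤ 2 ^ m)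
    (R : Res b m c n d r) {i : ℕ} (hi : i ≤ 2 * m + c) :
    2 ^ (2 * m + c - i) * (|uu p n d r i| - 4 * d) ≤ 2 ^ (2 * m + 7) := by
  have hM : (1 : ℤ) ≤ 2 ^ m := one_le_pow₀ (by norm_num)
  have hn' : (n : ℤ) + (2 * m + c : ℕ) ≤ 3 * 2 ^ m := by
    rw [pow_succ] at hn
    exact_mod_cast (by omega)
  have hd : (d : ℤ) ≤ 2 * 2 ^ m := by
    have := R.lt
    rw [pow_succ] at this
    exact_mod_cast (by omega)
  have hL' : ((2 * m + c : ℕ) : ℤ) ≤ 2 ^ m := by exact_mod_cast hL
  refine (back (w := fun i => |uu p n d r i| - 4 * d) (B := 12 * 2 ^ m) (A := 54 * (2 ^ m) ^ 2)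
    (fun i hi => ?_) ?_ (by positivity) i hi).trans ?_
  · have a1 := R.abs_le hi.le
    have a2 : (2 : ℤ) ^ (2 * m + c - i) = 2 ^ (2 * m + c - (i + 1)) * 2 := by
      rw [← pow_succ]; congr 1; omega
    have a3 : 2 * |uu p n d r i| ≤ |uu p n d r (i + 1)| + 4 * |r i| := by
      rw [R.ustep O hN hi]
      rcases abs_cases (uu p n d r i) with e | e <;> rw [e.1] <;>
        linarith [le_abs_self (2 * uu p n d r i - 4 * r i), neg_abs_le (2 * uu p n d r i - 4 * r i),
          le_abs_self (r i), neg_abs_le (r i)]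
    rw [a2] at a1 ⊢
    have := mul_le_mul_of_nonneg_left a3 (by positivity : (0 : ℤ) ≤ 2 ^ (2 * m + c - (i + 1)))
    nlinarith
  · have a1 := O.bd (n + (2 * m + c)) (by omega)
    have a2 := R.bd
    have a3 : |(d : ℤ) * p (n + (2 * m + c))| ≤ 2 * 2 ^ m * (6 * 2 ^ m) := by
      rw [abs_mul, abs_of_nonneg (by positivity), abs_of_nonneg (by linarith [a1.1])]
      exact mul_le_mul hd (by push_cast at a1 hn' ⊢; linarith [a1.2]) (by linarith [a1.1])
        (by positivity)
    have a4 : |(2 * ((n : ℤ) + (2 * m + c : ℕ)) + 1) * r (2 * m + c)| ≤ 7 * 2 ^ m * (6 * 2 ^ m) := by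
      rw [abs_mul, abs_of_nonneg (by positivity)]
      exact mul_le_mul (by linarith) a2 (abs_nonneg _) (by positivity)
    have a5 := abs_sub ((d : ℤ) * p (n + (2 * m + c)))
      ((2 * ((n : ℤ) + (2 * m + c : ℕ)) + 1) * r (2 * m + c))
    simp only [uu]
    nlinarith
  · rw [pow_add, pow_mul']
    nlinarith

theorem run (O : Orb N p b) (hN : N ≤ n) {t : ℕ} {x : ℤ} (h : ∀ s < t, dig (b (n + s)) = x) :
    (2 : ℤ) ^ t ≤ 2 * (n + t : ℕ) := by
  rcases Nat.eq_zero_or_pos t with rfl | ht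
  · have := O.bd n hN
    simpa using this.1.trans this.2
  have a0 := O.bd (n + t) (by omega)
  rcases dig_cases (b (n + 0)) with e | e <;> rw [h 0 ht] at e <;> subst e
  · have a1 := dbl (w := p) (a := n) (t := t) fun i hi => by
      rw [O.step _ (by omega), h i hi]; ring
    have a2 := mul_le_mul_of_nonneg_left (O.bd n hN).1 (by positivity : (0 : ℤ) ≤ 2 ^ t)
    linarith [a0.2]
  · have a1 : ∀ s ≤ t, 2 ^ s ≤ 2 * ((n + s : ℕ) : ℤ) + 1 - p (n + s) := by
      intro s
      induction s with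
      | zero => have := (O.bd n hN).2; simp; linarith
      | succ s ih =>
        intro hs
        have := ih (by omega)
        rw [← add_assoc, O.step _ (by omega), h s hs, pow_succ]
        push_cast at this ⊢
        linarith
    linarith [a1 t le_rfl, a0.1]

theorem Res.big (O : Orb N p b) (hN : N ≤ n) (hn : n < 2 ^ (m + 1)) (hL : 2 * m + c ≤ 2 ^ m)
    (R : Res b m c n d r) : c < 2 * d + 12 := by
  by_contra hc
  have hM : (0 : ℤ) < 2 ^ m := by positivity
  have a1 : ∀ i ≤ m + c - 3, 0 ≤ r i ∧ r i ≤ d := fun i hi => by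
    have b1 := R.range (i := i) (by omega)
    have b2 : (2 : ℤ) ^ (m + 3) ≤ 2 ^ (2 * m + c - i) := pow_le_pow_right₀ (by norm_num) (by omega)
    rw [pow_add] at b2
    constructor <;> by_contra hh <;> nlinarith [b1.1, b1.2]
  have d0 : (0 : ℤ) < d := by exact_mod_cast R.pos
  have a2 : ∀ i ≤ c - 8, 0 < r i ∧ r i < d := fun i hi => by
    by_contra hh
    have b1 := a1 i (by omega)
    obtain ⟨x, hx, hx'⟩ : ∃ x : ℤ, (x = 0 ∨ x = 1) ∧ r i = x * d := by
      rcases eq_or_lt_of_le b1.1 with e | e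
      · exact ⟨0, Or.inl rfl, by omega⟩
      · exact ⟨1, Or.inr rfl, by omega⟩
    have b2 : ∀ s < m + 3, r (i + s) = x * d → dig (b (n + i + s)) = x ∧ r (i + s + 1) = x * d := by
      intro s hs h
      have c1 := a1 (i + s + 1) (by omega)
      have c2 := R.step (i + s) (by omega)
      rw [← add_assoc] at c2
      rcases dig_cases (b (n + i + s)) with e | e <;> rcases hx with rfl | rfl <;>
        rw [e] at c2 ⊢ <;> omega
    have b3 : ∀ s ≤ m + 3, r (i + s) = x * d := by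
      intro s
      induction s with
      | zero => exact fun _ => hx'
      | succ s ih => exact fun hs => (b2 s hs (ih (by omega))).2
    have b4 := run O (n := n + i) (t := m + 3) (by omega) fun s hs => (b2 s hs (b3 s hs.le)).1
    have b5 : ((n + i + (m + 3) : ℕ) : ℤ) ≤ 3 * 2 ^ m := by
      rw [pow_succ] at hn
      exact_mod_cast (by omega)
    rw [pow_add] at b4
    linarith
  refine small_den d (c - 8) n r (uu p n d r) (by omega) (fun i hi => ?_) a2
    (fun i hi => R.ustep O hN (by omega)) (fun i hi => ?_) fun i _ => ⟨p (n + i), by simp [uu]⟩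
  · rw [R.step i (by omega)]
    rcases dig_cases (b (n + i)) with e | e <;> simp [e]
  · have b1 := R.ubd O hN hn hL (i := i) (by omega)
    have b2 : (2 : ℤ) ^ (2 * m + 7 + 1) ≤ 2 ^ (2 * m + c - i) :=
      pow_le_pow_right₀ (by norm_num) (by omega)
    rw [pow_succ] at b2
    by_contra hh
    nlinarith [pow_pos (by norm_num : (0 : ℤ) < 2) (2 * m + 7)]

theorem Res.dvd {n' d' k : ℕ} {r' : ℕ → ℤ} (O : Orb N p b) (hN : N ≤ n) (hN' : N ≤ n')
    (hn : n < 2 ^ (m + 1)) (hn' : n' < 2 ^ (m + 1)) (hL : 2 * m + c ≤ 2 ^ m) (hc : 12 ≤ c)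
    (R : Res b m c n d r) (R' : Res b m c n' d' r') (hk : 1 ≤ k) (h1 : 2 ^ k ≤ d)
    (h2 : d < 2 ^ (k + 1)) (h1' : 2 ^ k ≤ d') (h2' : d' < 2 ^ (k + 1))
    (hb : ∀ i < 2 * k + 4, b (n + i) = b (n' + i)) : (d : ℤ) ∣ 2 * ((n : ℤ) - n') := by
  have km : k ≤ m := by
    have := (Nat.pow_lt_pow_iff_right (by norm_num)).1 (h1.trans_lt R.lt)
    omega
  have key : ∀ {n d : ℕ} {r : ℕ → ℤ}, Res b m c n d r → 2 ^ k ≤ d → d < 2 ^ (k + 1) →
      |r (2 * k + 4)| ≤ 2 * d := by
    intro n d r R h1 h2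
    have a1 := R.abs_le (i := 2 * k + 4) (by omega)
    have a2 : (2 : ℤ) ^ (m + 3) ≤ 2 ^ (2 * m + c - (2 * k + 4)) * 2 ^ k := by
      rw [← pow_add]; exact pow_le_pow_right₀ (by norm_num) (by omega)
    have a3 : (2 : ℤ) ^ k ≤ d := by exact_mod_cast h1
    have a4 := mul_le_mul_of_nonneg_left a3
      (by positivity : (0 : ℤ) ≤ 2 ^ (2 * m + c - (2 * k + 4)))
    rw [pow_add] at a2
    refine le_of_mul_le_mul_left ?_ (by positivity : (0 : ℤ) < 2 ^ (2 * m + c - (2 * k + 4)))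
    nlinarith [pow_pos (by norm_num : (0 : ℤ) < 2) m]
  have d0 : (0 : ℤ) < d := by exact_mod_cast R.pos
  have d0' : (0 : ℤ) < d' := by exact_mod_cast R'.pos
  have d1 : (d : ℤ) < 2 * 2 ^ k := by rw [pow_succ'] at h2; exact_mod_cast h2
  have d1' : (d' : ℤ) < 2 * 2 ^ k := by rw [pow_succ'] at h2'; exact_mod_cast h2'
  have a1 := dbl_zero (w := fun i => r i * d' - r' i * d) (t := 2 * k + 4) (fun i hi => by
    rw [R.step i (by omega), R'.step i (by omega), hb i hi]; ring) (by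
    have b1 := mul_le_mul_of_nonneg_right (key R h1 h2) d0'.le
    have b2 := mul_le_mul_of_nonneg_right (key R' h1' h2') d0.le
    have b3 := abs_sub (r (2 * k + 4) * d') (r' (2 * k + 4) * d)
    rw [abs_mul, abs_mul, abs_of_pos d0, abs_of_pos d0'] at b3
    have b4 := mul_lt_mul'' d1 d1' d0.le d0'.le
    rw [pow_add, pow_mul']
    nlinarith)
  have a2 : d = d' := by
    have b1 : (d : ℤ) ∣ d' := R.cop.symm.dvd_of_dvd_mul_left ⟨r' 0, by linear_combination a1⟩
    have b2 : (d' : ℤ) ∣ d := R'.cop.symm.dvd_of_dvd_mul_left ⟨r 0, by linear_combination -a1⟩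
    exact Nat.dvd_antisymm (by exact_mod_cast b1) (by exact_mod_cast b2)
  subst a2
  have a3 : ∀ i ≤ 2 * k + 4, r i = r' i := by
    intro i
    induction i with
    | zero => exact fun _ => mul_right_cancel₀ d0.ne' (by linear_combination a1)
    | succ i ih =>
      intro hi
      rw [R.step i (by omega), R'.step i (by omega), hb i hi, ih (by omega)]
  have key2 : ∀ {n : ℕ} {r : ℕ → ℤ}, N ≤ n → n < 2 ^ (m + 1) → Res b m c n d r →
      |uu p n d r (k + 5)| ≤ 5 * d := by
    intro n r hN hn R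
    have b1 := R.ubd O hN hn hL (i := k + 5) (by omega)
    have b2 : (2 : ℤ) ^ (2 * m + 7) ≤ 2 ^ (2 * m + c - (k + 5)) * 2 ^ k := by
      rw [← pow_add]; exact pow_le_pow_right₀ (by norm_num) (by omega)
    have b3 : (2 : ℤ) ^ k ≤ d := by exact_mod_cast h1
    have b4 := mul_le_mul_of_nonneg_left b3 (by positivity : (0 : ℤ) ≤ 2 ^ (2 * m + c - (k + 5)))
    refine le_of_mul_le_mul_left ?_ (by positivity : (0 : ℤ) < 2 ^ (2 * m + c - (k + 5)))
    nlinarith
  have a4 := dbl_zero (w := fun i => uu p n d r i - uu p n' d r' i) (t := k + 5) (fun i hi => by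
    rw [R.ustep O hN (by omega), R'.ustep O hN' (by omega), a3 i (by omega)]; ring) (by
    have b1 := abs_sub (uu p n d r (k + 5)) (uu p n' d r' (k + 5))
    have b2 := key2 hN hn R
    have b3 := key2 hN' hn' R'
    rw [pow_add]
    nlinarith [pow_pos (by norm_num : (0 : ℤ) < 2) k])
  simp only [uu, ← a3 0 (by omega), add_zero, Nat.cast_zero] at a4
  exact R.cop.symm.dvd_of_dvd_mul_left ⟨p n - p n', by linear_combination -a4⟩

theorem res_of_repeat {n' : ℕ} (O : Orb N p b) (hN : N ≤ n) (hlt : n < n') (hn : 2 ^ m ≤ n)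
    (hn' : n' < 2 ^ (m + 1)) (hL : 2 * m + c ≤ 2 ^ m)
    (hb : ∀ i < 2 * m + c, b (n + i) = b (n' + i)) : ∃ d r, Res b m c n d r := by
  obtain ⟨v, rfl⟩ : ∃ v, n' = n + v := ⟨n' - n, by omega⟩
  set g := Int.gcd (p (n + v) - p n) (2 * v) with hg
  have g0 : 0 < g := Int.gcd_pos_of_ne_zero_right _ (by omega)
  have g0' : (0 : ℤ) < g := by exact_mod_cast g0
  obtain ⟨x, y, a1, a2, a3⟩ := Int.exists_gcd_one g0
  rw [← hg] at a2 a3
  have y0 : 0 < y := (mul_pos_iff_of_pos_right g0').1 (by omega)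
  lift y to ℕ using y0.le
  let r : ℕ → ℤ := fun i => Nat.rec x (fun i z => 2 * z - y * dig (b (n + i))) i
  have a4 : ∀ i ≤ 2 * m + c, p (n + v + i) - p (n + i) = r i * g := by
    intro i
    induction i with
    | zero => exact fun _ => a2
    | succ i ih =>
      intro hi
      rw [← add_assoc, ← add_assoc, O.step _ (by omega), O.step _ (by omega), ← hb i hi]
      change _ = (2 * r i - y * dig (b (n + i))) * g
      push_cast
      linear_combination 2 * ih (by omega) - dig (b (n + i)) * a3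
  rw [pow_succ] at hn'
  refine ⟨y, r, Int.isCoprime_iff_gcd_eq_one.2 a1, fun _ _ => rfl, ?_, by exact_mod_cast y0, ?_⟩
  · have b1 := O.bd (n + v + (2 * m + c)) (by omega)
    have b2 := O.bd (n + (2 * m + c)) (by omega)
    have b3 : ((n + v + (2 * m + c) : ℕ) : ℤ) ≤ 3 * 2 ^ m := by exact_mod_cast (by omega)
    have b4 : ((n + (2 * m + c) : ℕ) : ℤ) ≤ 3 * 2 ^ m := by exact_mod_cast (by omega)
    have b5 : |r (2 * m + c) * g| ≤ 6 * 2 ^ m := by
      rw [← a4 _ le_rfl, abs_le]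
      constructor <;> linarith [b1.1, b1.2, b2.1, b2.2]
    rw [abs_mul, abs_of_pos g0'] at b5
    nlinarith [abs_nonneg (r (2 * m + c))]
  · have : y * g = 2 * v := by exact_mod_cast a3.symm
    have : y ≤ y * g := Nat.le_mul_of_pos_right _ g0
    rw [pow_succ]
    omega

end Pool.Agent.Lib.MP_e486a8_co
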