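import Mathlib

/-!
Mirror pairing for the growing perfect shuffles (positions are counted from `0`).
After shuffle `t` the positions `i` and `2 * t + 3 - i` are partners: exactly one of the two cards
has already been at one of the positions `0`, `2`.
-/

namespace Pool.Agent.Lib.MP_e486a8_co.Mirror

/-- The two hypotheses describing the decks. -/
structure Shuffle (deck : ℕ → ℕ → ℕ) : Prop where
  h0 : ∀ i, deck 0 i = i + 1
  hs : ∀ m i, deck (m + 1) i =
      if i < 2 * (m + 1) then
        (if i % 2 = 0 then deck m (m + 1 + i / 2) else deck m (i / 2))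
      else deck m i

/-- Position before shuffle `m + 1` of the card that is at position `i` after it. -/
def par (m i : ℕ) : ℕ :=
  if i < 2 * (m + 1) then (if i % 2 = 0 then m + 1 + i / 2 else i / 2) else i

/-- Position after shuffle `m + 1` of the card that is at position `i` before it. -/
def nxt (m i : ℕ) : ℕ :=
  if i < m + 1 then 2 * i + 1 else if i < 2 * (m + 1) then 2 * (i - (m + 1)) else i

theorem par_nxt (m i : ℕ) : par m (nxt m i) = i := by
  unfold par nxt
  split_ifs <;> omega

theorem par_inj (m i j : ℕ) (h : par m i = par m j) : i = j := by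
  unfold par at h
  split_ifs at h <;> omega

/-- The card has been at position `0` or `2` in one of the decks `0, ..., t`. -/
def Seen (deck : ℕ → ℕ → ℕ) (t c : ℕ) : Prop := ∃ m, m ≤ t ∧ (deck m 0 = c ∨ deck m 2 = c)

variable {deck : ℕ → ℕ → ℕ}

theorem Shuffle.step (S : Shuffle deck) (m i : ℕ) : deck (m + 1) i = deck m (par m i) := by
  rw [S.hs]
  unfold par
  split_ifs <;> rfl

theorem Shuffle.fwd (S : Shuffle deck) (m i : ℕ) : deck (m + 1) (nxt m i) = deck m i := by
  rw [S.step, par_nxt]

theorem Shuffle.inj (S : Shuffle deck) : ∀ m i j, deck m i = deck m j → i = j := by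
  intro m
  induction m with
  | zero =>
    intro i j h
    rw [S.h0, S.h0] at h
    omega
  | succ m ih =>
    intro i j h
    rw [S.step, S.step] at h
    exact par_inj m i j (ih _ _ h)

theorem Shuffle.one (S : Shuffle deck) : ∀ m i, 1 ≤ deck m i := by
  intro m
  induction m with
  | zero => exact fun i => by rw [S.h0]; omega
  | succ m ih => exact fun i => by rw [S.step]; exact ih _

theorem seen_succ (t c : ℕ) :
    Seen deck (t + 1) c ↔ Seen deck t c ∨ deck (t + 1) 0 = c ∨ deck (t + 1) 2 = c := by
  constructor
  · rintro ⟨m, hm, h⟩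
    rcases Nat.lt_or_ge m (t + 1) with h1 | h1
    · exact Or.inl ⟨m, by omega, h⟩
    · obtain rfl : m = t + 1 := by omega
      exact Or.inr h
  · rintro (⟨m, hm, h⟩ | h)
    · exact ⟨m, by omega, h⟩
    · exact ⟨t + 1, le_rfl, h⟩

theorem Shuffle.seen_step (S : Shuffle deck) (t i : ℕ) :
    Seen deck (t + 1) (deck (t + 1) i) ↔ i = 0 ∨ i = 2 ∨ Seen deck t (deck t (par t i)) := by
  rw [seen_succ, ← S.step]
  constructor
  · rintro (h | h | h)
    · exact Or.inr (Or.inr h)
    · exact Or.inl (S.inj _ _ _ h).symm
    · exact Or.inr (Or.inl (S.inj _ _ _ h).symm)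
  · rintro (rfl | rfl | h)
    · exact Or.inr (Or.inl rfl)
    · exact Or.inr (Or.inr rfl)
    · exact Or.inl h

theorem Shuffle.far (S : Shuffle deck) : ∀ t i, 2 * t + 3 ≤ i → ¬ Seen deck t (deck t i) := by
  intro t
  induction t with
  | zero =>
    rintro i hi ⟨m, hm, h⟩
    obtain rfl : m = 0 := by omega
    rw [S.h0, S.h0, S.h0] at h
    omega
  | succ t ih =>
    intro i hi h
    rw [S.seen_step] at h
    have e : par t i = i := by
      unfold par
      split_ifs <;> omega
    rw [e] at h
    rcases h with h | h | h
    · omega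
    · omega
    · exact ih i (by omega) h

/-- The mirror pairing. -/
theorem Shuffle.mirror (S : Shuffle deck) :
    ∀ t i j, i + j = 2 * t + 3 → (Seen deck t (deck t i) ↔ ¬ Seen deck t (deck t j)) := by
  intro t
  induction t with
  | zero =>
    have e : ∀ i, Seen deck 0 (deck 0 i) ↔ i = 0 ∨ i = 2 := by
      intro i
      constructor
      · rintro ⟨m, hm, h⟩
        obtain rfl : m = 0 := by omega
        rw [S.h0, S.h0, S.h0] at h
        omega
      · rintro (rfl | rfl)
        · exact ⟨0, le_rfl, Or.inl rfl⟩
        · exact ⟨0, le_rfl, Or.inr rfl⟩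
    intro i j h
    rw [e, e]
    omega
  | succ t ih =>
    have top : Seen deck t (deck t 0) := ⟨t, le_rfl, Or.inl rfl⟩
    have key : ∀ i j, i + j = 2 * (t + 1) + 3 → i % 2 = 0 →
        (Seen deck (t + 1) (deck (t + 1) i) ↔ ¬ Seen deck (t + 1) (deck (t + 1) j)) := by
      intro i j h hi
      rw [S.seen_step, S.seen_step]
      by_cases h0 : i = 0 ∨ i = 2
      · have e : par t j = j := by
          unfold par
          split_ifs <;> omega
        have := S.far t j (by omega)
        rw [e]
        constructor
        · rintro - (h1 | h1 | h1)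
          · omega
          · omega
          · exact this h1
        · intro _
          rcases h0 with h0 | h0
          · exact Or.inl h0
          · exact Or.inr (Or.inl h0)
      · by_cases h1 : j = 1
        · have e : par t i = i := by
            unfold par
            split_ifs <;> omega
          have e' : par t j = 0 := by
            unfold par
            split_ifs <;> omega
          have := S.far t i (by omega)
          rw [e, e']
          constructor
          · rintro (h2 | h2 | h2)
            · omega
            · omega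
            · exact absurd h2 this
          · intro h2
            exact absurd (Or.inr (Or.inr top)) h2
        · have e : par t i + par t j = 2 * t + 3 := by
            unfold par
            split_ifs <;> omega
          have := ih _ _ e
          have a1 : i ≠ 0 := fun h => h0 (Or.inl h)
          have a2 : i ≠ 2 := fun h => h0 (Or.inr h)
          have a3 : j ≠ 0 := by omega
          have a4 : j ≠ 2 := by omega
          simp only [a1, a2, a3, a4, false_or]
          exact this
    intro i j h
    rcases Nat.mod_two_eq_zero_or_one i with hi | hi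
    · exact key i j h hi
    · have := key j i (by omega) (by omega)
      tauto

/-- After every shuffle exactly one of the cards at positions `0` and `2` is new there. -/
theorem Shuffle.one_new (S : Shuffle deck) (t : ℕ) :
    Seen deck t (deck (t + 1) 0) ↔ ¬ Seen deck t (deck (t + 1) 2) := by
  rw [S.step, S.step]
  apply S.mirror
  unfold par
  split_ifs <;> omega

theorem Shuffle.count (S : Shuffle deck) (N : ℕ) :
    {c | Seen deck N c}.Finite ∧ {c | Seen deck N c}.ncard = N + 2 := by
  induction N with
  | zero =>
    have : {c | Seen deck 0 c} = {1, 3} := by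
      ext c
      simp only [Set.mem_ofPred_eq, Set.mem_insert_iff, Set.mem_singleton_iff]
      constructor
      · rintro ⟨m, hm, h⟩
        obtain rfl : m = 0 := by omega
        rw [S.h0, S.h0] at h
        omega
      · rintro (rfl | rfl)
        · exact ⟨0, le_rfl, Or.inl (S.h0 0)⟩
        · exact ⟨0, le_rfl, Or.inr (S.h0 2)⟩
    rw [this]
    exact ⟨Set.toFinite _, Set.ncard_pair (by norm_num)⟩
  | succ N ih =>
    obtain ⟨y, hy, e⟩ : ∃ y, ¬ Seen deck N y ∧
        {c | Seen deck (N + 1) c} = insert y {c | Seen deck N c} := by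
      have h := S.one_new N
      by_cases h0 : Seen deck N (deck (N + 1) 0)
      · refine ⟨deck (N + 1) 2, h.1 h0, ?_⟩
        ext c
        simp only [Set.mem_ofPred_eq, Set.mem_insert_iff, seen_succ]
        constructor
        · rintro (h1 | h1 | h1)
          · exact Or.inr h1
          · exact Or.inr (h1 ▸ h0)
          · exact Or.inl h1.symm
        · rintro (h1 | h1)
          · exact Or.inr (Or.inr h1.symm)
          · exact Or.inl h1
      · have h2 : Seen deck N (deck (N + 1) 2) := by
          by_contra h2
          exact h0 (h.2 h2)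
        refine ⟨deck (N + 1) 0, h0, ?_⟩
        ext c
        simp only [Set.mem_ofPred_eq, Set.mem_insert_iff, seen_succ]
        constructor
        · rintro (h1 | h1 | h1)
          · exact Or.inr h1
          · exact Or.inl h1.symm
          · exact Or.inr (h1 ▸ h2)
        · rintro (h1 | h1)
          · exact Or.inr (Or.inl h1.symm)
          · exact Or.inl h1
    rw [e]
    refine ⟨ih.1.insert _, ?_⟩
    rw [Set.ncard_insert_of_notMem (s := {c | Seen deck N c}) hy ih.1, ih.2]

theorem Shuffle.still (S : Shuffle deck) : ∀ t i, 2 * t ≤ i → deck t i = i + 1 := by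
  intro t
  induction t with
  | zero => exact fun i _ => S.h0 i
  | succ t ih =>
    intro i hi
    rw [S.hs, if_neg (by omega)]
    exact ih i (by omega)

theorem Shuffle.seen_le (S : Shuffle deck) (t c : ℕ) (h : Seen deck t c) : c ≤ 2 * t + 3 := by
  by_contra hc
  have e := S.still t (c - 1) (by omega)
  have := S.far t (c - 1) (by omega)
  rw [e, show c - 1 + 1 = c by omega] at this
  exact this h

/-- A card that stops visiting the positions `0`, `2` keeps a partner that never visits them. -/
theorem Shuffle.partner (S : Shuffle deck) (x m N : ℕ) (hm : deck m 0 = x ∨ deck m 2 = x)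
    (hN : ∀ s, N ≤ s → deck s 0 ≠ x ∧ deck s 2 ≠ x) :
    ∃ y, 1 ≤ y ∧ ∀ s, deck s 0 ≠ y ∧ deck s 2 ≠ y := by
  have p1 : ∀ s, m ≤ s → ∃ i, i ≤ 2 * s + 2 ∧ deck s i = x := by
    intro s hs
    induction s, hs using Nat.le_induction with
    | base =>
      rcases hm with h | h
      · exact ⟨0, by omega, h⟩
      · exact ⟨2, by omega, h⟩
    | succ s _ ih =>
      obtain ⟨i, hi, e⟩ := ih
      refine ⟨nxt s i, ?_, by rw [S.fwd, e]⟩
      unfold nxt
      split_ifs <;> omega
  obtain ⟨i, hi, e⟩ := p1 (m + N) (by omega)
  have i0 : i ≠ 0 := fun h => (hN (m + N) (by omega)).1 (h ▸ e)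
  have e1 : deck (m + N + 1) (nxt (m + N) i) = x := by rw [S.fwd, e]
  have i1 : nxt (m + N) i ≠ 0 := fun h => (hN (m + N + 1) (by omega)).1 (h ▸ e1)
  have i2 : 2 ≤ nxt (m + N) i ∧ nxt (m + N) i ≤ 2 * (m + N + 1) + 1 := by
    revert i1
    unfold nxt
    split_ifs <;> omega
  obtain ⟨k, hk⟩ : ∃ k, nxt (m + N) i + k = 2 * (m + N + 1) + 3 :=
    ⟨2 * (m + N + 1) + 3 - nxt (m + N) i, by omega⟩
  have p2 : ∀ s, m + N + 1 ≤ s → ∃ a b, 2 ≤ a ∧ 2 ≤ b ∧ a + b = 2 * s + 3 ∧ deck s a = x ∧
      deck s b = deck (m + N + 1) k := by
    intro s hs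
    induction s, hs using Nat.le_induction with
    | base => exact ⟨_, k, i2.1, by omega, hk, e1, rfl⟩
    | succ s hs ih =>
      obtain ⟨a, b, ha, hb, hab, ea, eb⟩ := ih
      have f1 : deck (s + 1) (nxt s a) = x := by rw [S.fwd, ea]
      have n0 : nxt s a ≠ 0 := fun h => (hN (s + 1) (by omega)).1 (h ▸ f1)
      have n2 : nxt s a ≠ 2 := fun h => (hN (s + 1) (by omega)).2 (h ▸ f1)
      refine ⟨nxt s a, nxt s b, ?_, ?_, ?_, f1, by rw [S.fwd, eb]⟩ <;>
      · revert n0 n2
        unfold nxt
        split_ifs <;> omega
  refine ⟨deck (m + N + 1) k, S.one _ _, fun s => ?_⟩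
  obtain ⟨a, b, -, -, hab, ea, eb⟩ := p2 (m + N + 1 + s) (by omega)
  have := (S.mirror _ a b hab).1 ⟨m, by omega, ea ▸ hm⟩
  rw [eb] at this
  exact ⟨fun h => this ⟨s, by omega, Or.inl h⟩, fun h => this ⟨s, by omega, Or.inr h⟩⟩

end Pool.Agent.Lib.MP_e486a8_co.Mirror
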