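import Pool.Agent.Lib.MP_e486a8_co.Mirror

/-!
The eventual mirror partner of a card that stops visiting the positions `0`, `2`.
-/

namespace Pool.Agent.Lib.MP_e486a8_co.Mirror

variable {deck : ℕ → ℕ → ℕ}

/-- The cards `x` and `y` are mirror partners, off the positions `0`, `2`, in all late decks. -/
def Late (deck : ℕ → ℕ → ℕ) (x y : ℕ) : Prop :=
  ∃ T, ∀ s, T ≤ s → ∃ a b, 3 ≤ a ∧ 3 ≤ b ∧ a + b = 2 * s + 3 ∧ deck s a = x ∧ deck s b = y

theorem Shuffle.late_inj (S : Shuffle deck) {x x' y : ℕ} (h : Late deck x y) (h' : Late deck x' y) :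
    x = x' := by
  obtain ⟨T, h⟩ := h
  obtain ⟨T', h'⟩ := h'
  obtain ⟨a, b, -, -, e, ea, eb⟩ := h (T + T') (by omega)
  obtain ⟨a', b', -, -, e', ea', eb'⟩ := h' (T + T') (by omega)
  have := S.inj _ _ _ (eb.trans eb'.symm)
  obtain rfl : a = a' := by omega
  exact ea.symm.trans ea'

theorem Shuffle.late (S : Shuffle deck) (x N : ℕ) (hx : 1 ≤ x)
    (hN : ∀ s, N ≤ s → deck s 0 ≠ x ∧ deck s 2 ≠ x) : ∃ y, Late deck x y := by
  have p1 : ∀ s, ∃ i, (i ≤ 2 * s ∨ i < x) ∧ deck s i = x := by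
    intro s
    induction s with
    | zero => exact ⟨x - 1, by omega, by rw [S.h0]; omega⟩
    | succ s ih =>
      obtain ⟨i, hi, e⟩ := ih
      refine ⟨nxt s i, ?_, by rw [S.fwd, e]⟩
      unfold nxt
      split_ifs <;> omega
  obtain ⟨i, hi, e⟩ := p1 (x + N)
  have i0 : i ≠ 0 := fun h => (hN (x + N) (by omega)).1 (h ▸ e)
  have e1 : deck (x + N + 1) (nxt (x + N) i) = x := by rw [S.fwd, e]
  have i1 : nxt (x + N) i ≠ 0 := fun h => (hN (x + N + 1) (by omega)).1 (h ▸ e1)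
  have i3 : nxt (x + N) i ≠ 2 := fun h => (hN (x + N + 1) (by omega)).2 (h ▸ e1)
  have i2 : 3 ≤ nxt (x + N) i ∧ nxt (x + N) i ≤ 2 * (x + N + 1) := by
    revert i1 i3
    unfold nxt
    split_ifs <;> omega
  obtain ⟨k, hk⟩ : ∃ k, nxt (x + N) i + k = 2 * (x + N + 1) + 3 :=
    ⟨2 * (x + N + 1) + 3 - nxt (x + N) i, by omega⟩
  refine ⟨deck (x + N + 1) k, x + N + 1, fun s hs => ?_⟩
  induction s, hs using Nat.le_induction with
  | base => exact ⟨_, k, i2.1, by omega, hk, e1, rfl⟩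
  | succ s hs ih =>
    obtain ⟨a, b, ha, hb, hab, ea, eb⟩ := ih
    have f1 : deck (s + 1) (nxt s a) = x := by rw [S.fwd, ea]
    have n0 : nxt s a ≠ 0 := fun h => (hN (s + 1) (by omega)).1 (h ▸ f1)
    have n2 : nxt s a ≠ 2 := fun h => (hN (s + 1) (by omega)).2 (h ▸ f1)
    refine ⟨nxt s a, nxt s b, ?_, ?_, ?_, f1, by rw [S.fwd, eb]⟩ <;>
    · revert n0 n2
      unfold nxt
      split_ifs <;> omega

theorem Shuffle.late_facts (S : Shuffle deck) {x y : ℕ} (h : Late deck x y) :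
    1 ≤ y ∧ {m | deck m 0 = y ∨ deck m 2 = y}.Finite ∧
      ({m | deck m 0 = x ∨ deck m 2 = x}.Nonempty ↔ {m | deck m 0 = y ∨ deck m 2 = y} = ∅) := by
  obtain ⟨T, h⟩ := h
  have off : ∀ s, T ≤ s → (¬ (deck s 0 = x ∨ deck s 2 = x)) ∧ ¬ (deck s 0 = y ∨ deck s 2 = y) := by
    intro s hs
    obtain ⟨a, b, ha, hb, -, ea, eb⟩ := h s hs
    refine ⟨?_, ?_⟩ <;> rintro (e | e)
    · have := S.inj _ _ _ (e.trans ea.symm); omega
    · have := S.inj _ _ _ (e.trans ea.symm); omega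
    · have := S.inj _ _ _ (e.trans eb.symm); omega
    · have := S.inj _ _ _ (e.trans eb.symm); omega
  obtain ⟨a, b, -, -, hab, ea, eb⟩ := h T le_rfl
  have m := S.mirror T a b hab
  rw [ea, eb] at m
  refine ⟨eb ▸ S.one _ _, (Set.finite_lt_nat T).subset fun s hs => ?_, ?_, ?_⟩
  · by_contra c
    exact (off s (not_lt.1 c)).2 hs
  · rintro ⟨s, hs⟩
    have s1 : s ≤ T := by
      by_contra c
      exact (off s (by omega)).1 hs
    refine Set.eq_empty_of_forall_notMem fun t ht => m.1 ⟨s, s1, hs⟩ ⟨t, ?_, ht⟩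
    by_contra c
    exact (off t (by omega)).2 ht
  · intro e
    obtain ⟨s, -, hs⟩ := m.2 fun ⟨t, _, ht⟩ => (Set.eq_empty_iff_forall_notMem.1 e) t ht
    exact ⟨s, hs⟩

theorem Shuffle.equi (S : Shuffle deck) :
    {c : ℕ | 1 ≤ c ∧ {m | deck m 0 = c ∨ deck m 2 = c} = ∅}.encard =
      {c : ℕ | 1 ≤ c ∧ {m | deck m 0 = c ∨ deck m 2 = c}.Nonempty ∧
        {m | deck m 0 = c ∨ deck m 2 = c}.Finite}.encard := by
  have ex : ∀ x : ℕ, ∃ y, 1 ≤ x → {m | deck m 0 = x ∨ deck m 2 = x}.Finite → Late deck x y := by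
    intro x
    by_cases h : 1 ≤ x ∧ {m | deck m 0 = x ∨ deck m 2 = x}.Finite
    · obtain ⟨N, hN⟩ := h.2.bddAbove
      obtain ⟨y, hy⟩ := S.late x (N + 1) h.1 fun s hs =>
        ⟨fun e => by have := hN (Or.inl e : s ∈ {m | deck m 0 = x ∨ deck m 2 = x}); omega,
          fun e => by have := hN (Or.inr e : s ∈ {m | deck m 0 = x ∨ deck m 2 = x}); omega⟩
      exact ⟨y, fun _ _ => hy⟩
    · exact ⟨0, fun a b => absurd ⟨a, b⟩ h⟩
  choose f hf using ex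
  refine le_antisymm (Set.encard_le_encard_of_injOn (f := f) (fun x hx => ?_) fun x hx x' hx' e => ?_)
    (Set.encard_le_encard_of_injOn (f := f) (fun x hx => ?_) fun x hx x' hx' e => ?_)
  · obtain ⟨a, b, c⟩ := S.late_facts (hf x hx.1 (hx.2 ▸ Set.finite_empty))
    refine ⟨a, Set.nonempty_iff_ne_empty.2 fun e => ?_, b⟩
    exact (Set.nonempty_iff_ne_empty.1 (c.2 e)) hx.2
  · exact S.late_inj (hf x hx.1 (hx.2 ▸ Set.finite_empty))
      (e ▸ hf x' hx'.1 (hx'.2 ▸ Set.finite_empty))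
  · obtain ⟨a, -, c⟩ := S.late_facts (hf x hx.1 hx.2.2)
    exact ⟨a, c.1 hx.2.1⟩
  · exact S.late_inj (hf x hx.1 hx.2.2) (e ▸ hf x' hx'.1 hx'.2.2)

end Pool.Agent.Lib.MP_e486a8_co.Mirror
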