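import Mathlib

/-!
Resonant times of the recursion `p (m+1) = 2 * p m - e m * (2 * m + 3)`.
-/

namespace Pool.Agent.Lib.MP_e486a8_co

open Finset

theorem dbl {w : ℕ → ℤ} {a t : ℕ} (h : ∀ i < t, w (a + i + 1) = 2 * w (a + i)) :
    w (a + t) = 2 ^ t * w a := by
  induction t with
  | zero => simp
  | succ t ih => rw [← add_assoc, h t (by omega), ih fun i hi => h i (by omega)]; ring

theorem dbl_zero {w : ℕ → ℤ} {t : ℕ} (h : ∀ i < t, w (i + 1) = 2 * w i) (hb : |w t| < 2 ^ t) :
    w 0 = 0 := by
  have := dbl (w := w) (a := 0) (t := t) (by simpa using h)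
  rw [zero_add] at this
  rw [this, abs_mul, abs_of_pos (by positivity)] at hb
  have : |w 0| < 1 := by
    by_contra hh
    nlinarith [pow_pos (by norm_num : (0 : ℤ) < 2) t]
  exact Int.abs_lt_one_iff.1 this

theorem back {w : ℕ → ℤ} {L : ℕ} {A B : ℤ} (h : ∀ i < L, 2 ^ (L - i) * w i ≤
    2 ^ (L - (i + 1)) * w (i + 1) + B) (hL : w L ≤ A) (hB : 0 ≤ B) :
    ∀ i ≤ L, 2 ^ (L - i) * w i ≤ A + L * B := by
  have : ∀ t ≤ L, 2 ^ t * w (L - t) ≤ A + t * B := by
    intro t
    induction t with
    | zero => simpa using hL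
    | succ t ih =>
      intro ht
      have a1 := h (L - (t + 1)) (by omega)
      have a2 := ih (by omega)
      rw [show L - (t + 1) + 1 = L - t by omega, show L - (L - (t + 1)) = t + 1 by omega,
        show L - (L - t) = t by omega] at a1
      push_cast
      linarith
  intro i hi
  have a1 := this (L - i) (by omega)
  rw [show L - (L - i) = i by omega] at a1
  have : ((L - i : ℕ) : ℤ) ≤ L := by omega
  nlinarith

theorem small_den (d : ℕ) : ∀ (I : ℕ) (n : ℤ) (r u : ℕ → ℤ), 2 * d + 3 ≤ I →
    (∀ i < I, r (i + 1) = 2 * r i ∨ r (i + 1) = 2 * r i - d) → (∀ i ≤ I, 0 < r i ∧ r i < d) →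
    (∀ i < I, u (i + 1) = 2 * u i - 4 * r i) → (∀ i ≤ I, |u i| ≤ 4 * d) →
    (∀ i ≤ I, (d : ℤ) ∣ u i + (2 * (n + i) + 1) * r i) → False := by
  induction d using Nat.strong_induction_on with
  | _ d ih =>
  intro I n r u hI h1 h2 h3 h4 h5
  by_cases hc : IsCoprime (r 1) d
  · have c1 : IsCoprime (2 : ℤ) d := by
      rcases h1 0 (by omega) with e | e <;> rw [zero_add] at e <;> rw [e] at hc
      · exact hc.of_mul_left_left
      · rw [sub_eq_add_neg, ← mul_neg_one] at hc
        exact hc.of_add_mul_left_left.of_mul_left_left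
    have c2 : ∀ i, i + 1 ≤ I → IsCoprime (r (i + 1)) d := by
      intro i
      induction i with
      | zero => exact fun _ => hc
      | succ i ih2 =>
        intro hi
        have := c1.mul_left (ih2 (by omega))
        rcases h1 (i + 1) (by omega) with e | e <;> rw [e]
        · exact this
        · rw [sub_eq_add_neg, ← mul_neg_one]
          exact this.add_mul_left_left _
    have d0 : 0 < d := by have := h2 0 (by omega); omega
    obtain ⟨i, hi, k, hk, hne, he⟩ := exists_ne_map_eq_of_card_lt_of_maps_to (s := Icc 1 d)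
      (t := Ioo (0 : ℤ) d) (f := r) (by simp; omega) fun i hi => by
        simp only [coe_Icc, Set.mem_Icc, coe_Ioo, Set.mem_Ioo] at hi ⊢
        exact h2 i (by omega)
    wlog hik : i < k generalizing i k
    · exact this k hk i hi hne.symm he.symm (by omega)
    simp only [mem_Icc] at hi hk
    have c3 : ∀ s ≤ d + 3, r (i + s) = r (k + s) := by
      intro s
      induction s with
      | zero => exact fun _ => he
      | succ s ih2 =>
        intro hs
        have a1 := ih2 (by omega)
        have a2 := h1 (i + s) (by omega)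
        have a3 := h1 (k + s) (by omega)
        have a4 := h2 (i + s + 1) (by omega)
        have a5 := h2 (k + s + 1) (by omega)
        rw [← add_assoc, ← add_assoc]
        omega
    have c4 := dbl_zero (w := fun s => u (k + s) - u (i + s)) (t := d + 3) (fun s hs => by
      simp only [← add_assoc]
      rw [h3 _ (by omega), h3 _ (by omega), c3 s hs.le]
      ring) (by
      have a1 := abs_le.1 (h4 (k + (d + 3)) (by omega))
      have a2 := abs_le.1 (h4 (i + (d + 3)) (by omega))
      have a3 : (d : ℤ) < 2 ^ d := by exact_mod_cast Nat.lt_two_pow_self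
      rw [pow_add, abs_lt]
      constructor <;> linarith [a1.1, a1.2, a2.1, a2.2])
    simp only [add_zero] at c4
    have c5 := dvd_sub (h5 k (by omega)) (h5 i (by omega))
    rw [← he, show u k + (2 * (n + k) + 1) * r i - (u i + (2 * (n + i) + 1) * r i) =
      (u k - u i) + r i * (2 * ((k : ℤ) - i)) by ring, c4, zero_add] at c5
    obtain ⟨i, rfl⟩ : ∃ j, i = j + 1 := ⟨i - 1, by omega⟩
    have c6 := c1.symm.dvd_of_dvd_mul_left ((c2 i (by omega)).symm.dvd_of_dvd_mul_left c5)
    have := Int.le_of_dvd (by omega) c6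
    omega
  · obtain ⟨g, g1, g2, g3⟩ : ∃ g : ℕ, 1 < g ∧ (g : ℤ) ∣ r 1 ∧ g ∣ d := by
      refine ⟨Int.gcd (r 1) d, ?_, Int.gcd_dvd_left _ _, by exact_mod_cast Int.gcd_dvd_right (r 1) d⟩
      have a1 := mt Int.isCoprime_iff_gcd_eq_one.2 hc
      have a2 := Int.gcd_pos_of_ne_zero_left (d : ℤ) (h2 1 (by omega)).1.ne'
      omega
    obtain ⟨d', rfl⟩ := g3
    have g0 : (0 : ℤ) < g := by omega
    have d0 : 0 < d' := by
      have := h2 0 (by omega)
      exact Nat.pos_of_ne_zero fun h => by simp [h] at this; omega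
    have c1 : ∀ i, ∃ x, i + 1 ≤ I → r (i + 1) = g * x := by
      intro i
      induction i with
      | zero => exact g2.imp fun _ h _ => h
      | succ i ih2 =>
        obtain ⟨x, hx⟩ := ih2
        by_cases hi : i + 1 + 1 ≤ I
        · rcases h1 (i + 1) (by omega) with e | e
          · exact ⟨2 * x, fun _ => by rw [e, hx (by omega)]; ring⟩
          · exact ⟨2 * x - d', fun _ => by rw [e, hx (by omega)]; push_cast; ring⟩
        · exact ⟨0, fun h => absurd h hi⟩
    choose r' hr' using c1
    have c2 : ∀ i, ∃ x, i + 1 ≤ I → u (i + 1) = g * x := by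
      intro i
      by_cases hi : i + 1 ≤ I
      · obtain ⟨x, hx⟩ := h5 (i + 1) hi
        rw [hr' i hi] at hx
        exact ⟨d' * x - (2 * (n + (i + 1 : ℕ)) + 1) * r' i, fun _ => by
          push_cast at hx ⊢; linear_combination hx⟩
      · exact ⟨0, fun h => absurd h hi⟩
    choose u' hu' using c2
    have hlt : d' < g * d' := by nlinarith
    refine ih d' hlt (I - 1) (n + 1) r' u' (by omega) (fun i hi => ?_) (fun i hi => ?_)
      (fun i hi => ?_) (fun i hi => ?_) fun i hi => ?_
    · have := h1 (i + 1) (by omega)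
      rw [hr' _ (by omega), hr' _ (by omega)] at this
      refine this.imp (fun e => mul_left_cancel₀ g0.ne' ?_) fun e => mul_left_cancel₀ g0.ne' ?_
      · linear_combination e
      · push_cast at e; linear_combination e
    · have := h2 (i + 1) (by omega)
      rw [hr' _ (by omega)] at this
      push_cast at this
      exact ⟨(mul_pos_iff_of_pos_left g0).1 this.1, lt_of_mul_lt_mul_left this.2 g0.le⟩
    · have := h3 (i + 1) (by omega)
      rw [hr' _ (by omega), hu' _ (by omega), hu' _ (by omega)] at this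
      exact mul_left_cancel₀ g0.ne' (by linear_combination this)
    · have := h4 (i + 1) (by omega)
      rw [hu' _ (by omega), abs_mul, abs_of_pos g0] at this
      push_cast at this
      exact le_of_mul_le_mul_left (by linarith) g0
    · obtain ⟨x, hx⟩ := h5 (i + 1) (by omega)
      rw [hr' _ (by omega), hu' _ (by omega)] at hx
      exact ⟨x, mul_left_cancel₀ g0.ne' (by push_cast at hx ⊢; linear_combination hx)⟩

end Pool.Agent.Lib.MP_e486a8_co
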