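import Pool.Agent.Lib.MP_e486a8_co.Freq

/-!
A maximal inequality, and the block entropy of the itinerary.
-/

namespace Pool.Agent.Lib.MP_e486a8_co

open Finset

variable {N : ℕ} {p : ℕ → ℤ} {b : ℕ → Bool}

/-- The largest sum of `f - a` over at most `J` steps of size `L` from `n`. -/
noncomputable def sun (f : ℕ → ℝ) (a : ℝ) (L : ℕ) : ℕ → ℕ → ℝ
  | 0, _ => 0
  | J + 1, n => max 0 (f n - a + sun f a L J (n + L))

variable {f : ℕ → ℝ} {a F : ℝ} {L : ℕ}

theorem sun_nonneg (J n : ℕ) : 0 ≤ sun f a L J n := by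
  cases J with
  | zero => exact le_rfl
  | succ J => exact le_max_left _ _

theorem sun_mono (J : ℕ) : ∀ n, sun f a L J n ≤ sun f a L (J + 1) n := by
  induction J with
  | zero => exact fun n => sun_nonneg 1 n
  | succ J ih => exact fun n => max_le_max le_rfl (add_le_add le_rfl (ih _))

theorem sun_ge (J : ℕ) : ∀ n, ∀ j ≤ J, ∑ i ∈ range j, (f (n + i * L) - a) ≤ sun f a L J n := by
  induction J with
  | zero =>
    intro n j hj
    obtain rfl : j = 0 := by omega
    simp [sun]
  | succ J ih =>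
    intro n j hj
    cases j with
    | zero => simpa using sun_nonneg (J + 1) n
    | succ j =>
      refine le_trans ?_ (le_max_right _ _)
      have := ih (n + L) j (by omega)
      rw [sum_range_succ', add_comm]
      simp only [zero_mul, add_zero]
      refine add_le_add le_rfl (le_trans (le_of_eq (sum_congr rfl fun i _ => ?_)) this)
      rw [show n + (i + 1) * L = n + L + i * L by ring]

theorem sun_le (hf : ∀ n, f n ≤ F) (F0 : 0 ≤ F) (a0 : 0 ≤ a) (J : ℕ) :
    ∀ n, sun f a L J n ≤ J * F := by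
  induction J with
  | zero => simp [sun]
  | succ J ih =>
    intro n
    refine max_le (by positivity) ?_
    have := ih (n + L)
    have := hf n
    push_cast
    linarith

open Classical in
theorem maximal (f0 : ∀ n, 0 ≤ f n) (hf : ∀ n, f n ≤ F) (a0 : 0 ≤ a) (J : ℕ) {A B : ℕ}
    (hAB : A ≤ B) : a * ((Ico A B).filter fun n => 0 < sun f a L J n).card ≤
      ∑ n ∈ Ico A B, f n + L * (J * F) := by
  have F0 := (f0 0).trans (hf 0)
  have a1 : ∀ n, (if 0 < sun f a L J n then a else 0) + sun f a L J n ≤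
      f n + sun f a L J (n + L) := by
    intro n
    split_ifs with h
    · cases J with
      | zero => exact absurd h (lt_irrefl _)
      | succ J =>
        have e : sun f a L (J + 1) n = f n - a + sun f a L J (n + L) := by
          rcases max_cases 0 (f n - a + sun f a L J (n + L)) with e | e
          · exact absurd (show sun f a L (J + 1) n = 0 from e.1) h.ne'
          · exact e.1
        have := sun_mono (f := f) (a := a) (L := L) J (n + L)
        linarith
    · have := sun_nonneg (f := f) (a := a) (L := L) J (n + L)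
      have := f0 n
      linarith [not_lt.1 h]
  have a2 := sum_le_sum fun n (_ : n ∈ Ico A B) => a1 n
  rw [sum_add_distrib, sum_add_distrib, ← sum_filter, sum_const, nsmul_eq_mul,
    sum_Ico_add' (sun f a L J)] at a2
  have a3 : ∑ n ∈ Ico (A + L) (B + L), sun f a L J n ≤ ∑ n ∈ Ico A (B + L), sun f a L J n :=
    sum_le_sum_of_subset_of_nonneg (Ico_subset_Ico (by omega) le_rfl) fun n _ _ => sun_nonneg J n
  have a4 := sum_Ico_consecutive (sun f a L J) hAB (Nat.le_add_right B L)
  have a5 : ∑ n ∈ Ico B (B + L), sun f a L J n ≤ L * (J * F) := by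
    simpa using sum_le_card_nsmul (Ico B (B + L)) _ _ fun n _ => sun_le (L := L) hf F0 a0 J n
  linarith

theorem cross (O : Orb N p b) (L0 : 0 < L) (a0 : 0 ≤ a) (a2 : 2 * a < L * Real.log 2) {ε : ℝ}
    (e0 : 0 < ε) : ∃ K : ℝ, ∀ q : (Fin L → Bool) → ℝ, (∀ w, 0 < q w) → ∑ w, q w ≤ 1 →
      ∀ F : ℝ, (∀ w, -Real.log (q w) ≤ F) → ∀ A B : ℕ, A ≤ B →
      a * ((B : ℝ) - A - K - 2 * ε * B) ≤
        ∑ n ∈ Ico A B, -Real.log (q (blk b L n)) + L * ((3 * Nat.log 2 B : ℕ) * F) := by
  classical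
  have L1 : (0 : ℝ) < L := by exact_mod_cast L0
  have s1 : 1 ≤ Real.exp (a / L) := Real.one_le_exp (by positivity)
  have s2 : Real.exp (a / L) ^ 2 < 2 := by
    rw [← Real.exp_nat_mul]
    refine (Real.lt_log_iff_exp_lt two_pos).1 ?_
    rw [← mul_div_assoc, div_lt_iff₀' L1]
    exact_mod_cast a2
  obtain ⟨m0, hm⟩ := rare O L0 s1 s2 e0
  refine ⟨2 ^ m0, fun q q0 q1 F hF A B hAB => ?_⟩
  set f : ℕ → ℝ := fun n => -Real.log (q (blk b L n)) with hf
  set M := Nat.log 2 B with hM
  have f0 : ∀ n, 0 ≤ f n := fun n => neg_nonneg.2 (Real.log_nonpos (q0 _).le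
    ((single_le_sum (fun w _ => (q0 w).le) (mem_univ _)).trans q1))
  have b1 := maximal (L := L) f0 (fun n => hF _) a0 (3 * M) hAB
  set G := (Ico A B).filter fun n => ¬ 0 < sun f a L (3 * M) n with hG
  have b2 : G ⊆ range (2 ^ m0) ∪ (Ico m0 (M + 1)).biUnion fun m =>
      G.filter (· ∈ Ico (2 ^ m) (2 ^ (m + 1))) := by
    intro n hn
    have c1 := (mem_Ico.1 (mem_filter.1 hn).1).2
    simp only [mem_union, mem_range, mem_biUnion, mem_Ico, mem_filter]
    refine or_iff_not_imp_left.2 fun h => ?_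
    have c2 := Nat.two_pow_pos m0
    exact ⟨Nat.log 2 n, ⟨(Nat.le_log_iff_pow_le (by norm_num) (by omega)).2 (by omega),
      Nat.lt_succ_of_le (Nat.log_mono_right c1.le)⟩, by simpa [hG] using hn,
      Nat.pow_log_le_self 2 (by omega), Nat.lt_pow_succ_log_self (by norm_num) n⟩
  have b3 : ∀ m ∈ Ico m0 (M + 1),
      ((G.filter (· ∈ Ico (2 ^ m) (2 ^ (m + 1)))).card : ℝ) ≤ ε * 2 ^ m := by
    intro m hm'
    rw [mem_Ico] at hm'
    refine hm m hm'.1 q (fun w => (q0 w).le) q1 _ (fun n hn => (mem_filter.1 hn).2)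
      fun n hn j hj => ?_
    have c1 := (sun_ge (f := f) (a := a) (L := L) (3 * M) n j (by omega)).trans
      (not_lt.1 (mem_filter.1 (mem_filter.1 hn).1).2)
    have c2 : ∏ i ∈ range j, q (blk b L (n + i * L)) =
        Real.exp (∑ i ∈ range j, -f (n + i * L)) := by
      rw [Real.exp_sum]
      exact prod_congr rfl fun i _ => by simp [hf, Real.exp_log (q0 _)]
    rw [c2, ← Real.exp_nat_mul, ← Real.exp_add]
    refine Real.one_le_exp ?_
    rw [sum_sub_distrib, sum_const, card_range, nsmul_eq_mul] at c1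
    rw [sum_neg_distrib, Nat.cast_mul, mul_assoc, mul_div_cancel₀ _ L1.ne']
    linarith
  have b4 : G.card ≤ 2 ^ m0 + ∑ m ∈ Ico m0 (M + 1),
      (G.filter (· ∈ Ico (2 ^ m) (2 ^ (m + 1)))).card :=
    (card_le_card b2).trans ((card_union_le _ _).trans (Nat.add_le_add (by simp) card_biUnion_le))
  have b5 := (Nat.cast_le (α := ℝ)).2 b4
  push_cast at b5
  have b6 := sum_le_sum b3
  rw [← mul_sum] at b6
  have b9 := card_filter_add_card_filter_not (s := Ico A B) fun n => 0 < sun f a L (3 * M) n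
  rw [Nat.card_Ico, ← hG] at b9
  have b10 := congrArg (Nat.cast (R := ℝ)) b9
  rw [Nat.cast_add, Nat.cast_sub hAB] at b10
  have b11 : (G.card : ℝ) ≤ 2 ^ m0 + 2 * ε * B := by
    rcases Nat.eq_zero_or_pos B with rfl | B0
    · simp [hG]
    have b7 : ∑ m ∈ Ico m0 (M + 1), (2 : ℝ) ^ m ≤ ∑ m ∈ range (M + 1), 2 ^ m :=
      sum_le_sum_of_subset_of_nonneg (fun x hx => mem_range.2 (mem_Ico.1 hx).2)
        fun _ _ _ => by positivity
    have b8 : (2 : ℝ) ^ M ≤ B := by exact_mod_cast Nat.pow_log_le_self 2 B0.ne'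
    rw [geom_sum_eq (by norm_num), pow_succ] at b7
    nlinarith
  nlinarith

open Classical in
theorem blockEntropy (O : Orb N p b) (L : ℕ) {δ ε : ℝ} (d0 : 0 < δ) (e0 : 0 < ε) :
    ∃ B0 : ℕ, ∀ A B : ℕ, B0 ≤ B → δ * B ≤ (B : ℝ) - A →
      L / 2 * Real.log 2 - ε ≤ ∑ w : Fin L → Bool,
        Real.negMulLog ((((Ico A B).filter fun n => blk b L n = w).card : ℝ) / ((B : ℝ) - A)) := by
  set a := L / 2 * Real.log 2 - ε / 4 with ha
  have pre : ∀ A B : ℕ, 1 ≤ B → δ * B ≤ (B : ℝ) - A → A ≤ B ∧ (0 : ℝ) < (B : ℝ) - A ∧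
      ∑ w : Fin L → Bool, (((Ico A B).filter fun n => blk b L n = w).card : ℝ) = (B : ℝ) - A := by
    intro A B h1 h2
    have c1 : (0 : ℝ) < (B : ℝ) - A := lt_of_lt_of_le (by positivity) h2
    have c2 : A ≤ B := by exact_mod_cast (sub_pos.1 c1).le
    refine ⟨c2, c1, ?_⟩
    rw [← Nat.cast_sub c2, ← Nat.card_Ico,
      card_eq_sum_card_fiberwise (f := blk b L) (t := univ) fun _ _ => mem_univ _]
    push_cast
    rfl
  rcases le_or_gt a 0 with a0 | a0
  · refine ⟨1, fun A B h1 h2 => le_trans (by linarith) (sum_nonneg fun w _ => ?_)⟩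
    obtain ⟨-, c1, c2⟩ := pre A B h1 h2
    refine Real.negMulLog_nonneg (by positivity) ((div_le_one c1).2 ?_)
    rw [← c2]
    exact single_le_sum (f := fun w => (((Ico A B).filter fun n => blk b L n = w).card : ℝ))
      (fun _ _ => by positivity) (mem_univ w)
  have L0 : 0 < L := Nat.pos_of_ne_zero fun h => by
    rw [h] at ha
    simp only [Nat.cast_zero, zero_div, zero_mul] at ha
    linarith
  obtain ⟨K, hK⟩ := cross O L0 a0.le (by linarith) (ε := ε * δ / (8 * a)) (by positivity)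
  set t := Real.exp (-(ε / 4)) with ht
  have t0 : 0 < t := Real.exp_pos _
  have t1 : 0 < 1 - t := sub_pos.2 (Real.exp_lt_one_iff.2 (by linarith))
  set u : ℝ := (1 - t) / 2 ^ L with hu
  have u0 : 0 < u := by positivity
  set F := -Real.log u with hF
  have lim := ((tendsto_pow_const_div_const_pow_of_one_lt 0 (one_lt_two (α := ℝ))).const_mul
    (a * K)).add ((tendsto_pow_const_div_const_pow_of_one_lt 1 (one_lt_two (α := ℝ))).const_mul
      (L * (3 * F)))
  rw [mul_zero, mul_zero, add_zero] at lim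
  obtain ⟨M1, hM1⟩ := Filter.eventually_atTop.1
    (lim.eventually (gt_mem_nhds (by positivity : 0 < ε / 4 * δ)))
  refine ⟨2 ^ M1, fun A B h1 h2 => ?_⟩
  have B1 : 1 ≤ B := le_trans (Nat.two_pow_pos M1) h1
  obtain ⟨c0, c1, c2⟩ := pre A B B1 h2
  set H : ℝ := (B : ℝ) - A with hH
  set μ : (Fin L → Bool) → ℝ := fun w =>
    (((Ico A B).filter fun n => blk b L n = w).card : ℝ) / H with hμ
  have μ0 : ∀ w, 0 ≤ μ w := fun w => by positivity
  have μ1 : ∑ w, μ w = 1 := by rw [← sum_div, c2, div_self c1.ne']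
  have q0 : ∀ w, 0 < t * μ w + u := fun w => by have := μ0 w; positivity
  have c3 := hK (fun w => t * μ w + u) q0 (by
      rw [sum_add_distrib, ← mul_sum, μ1]
      simp [hu, mul_div_cancel₀])
    F (fun w => neg_le_neg (Real.log_le_log u0 (by have := μ0 w; nlinarith))) A B c0
  have c4 : ∑ n ∈ Ico A B, -Real.log (t * μ (blk b L n) + u) ≤
      H * (ε / 4 + ∑ w, Real.negMulLog (μ w)) := by
    rw [← sum_fiberwise_of_maps_to (g := blk b L) (t := univ) fun _ _ => mem_univ _,
      ← mul_one (ε / 4), ← μ1, mul_sum, ← sum_add_distrib, mul_sum]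
    refine sum_le_sum fun w _ => ?_
    rw [sum_congr rfl fun n hn => by rw [(mem_filter.1 hn).2], sum_const, nsmul_eq_mul]
    have e : (((Ico A B).filter fun n => blk b L n = w).card : ℝ) = H * μ w :=
      (mul_div_cancel₀ _ c1.ne').symm
    rw [e, mul_assoc]
    refine mul_le_mul_of_nonneg_left ?_ c1.le
    rcases (μ0 w).eq_or_lt with z | z
    · simp [← z]
    have g1 := Real.log_le_log (mul_pos t0 z) (le_add_of_nonneg_right u0.le)
    rw [Real.log_mul t0.ne' z.ne', ht, Real.log_exp, ← ht] at g1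
    rw [Real.negMulLog]
    nlinarith
  have c5 := hM1 (Nat.log 2 B) ((Nat.le_log_iff_pow_le (by norm_num) (by omega)).2 h1)
  have c6 : (2 : ℝ) ^ Nat.log 2 B ≤ B := by exact_mod_cast Nat.pow_log_le_self 2 (by omega)
  simp only [pow_zero, pow_one] at c5
  rw [← mul_div_assoc, ← mul_div_assoc, ← add_div, div_lt_iff₀ (by positivity)] at c5
  have c7 : ε / 4 * δ * 2 ^ Nat.log 2 B ≤ ε / 4 * H := by
    rw [mul_assoc]
    exact mul_le_mul_of_nonneg_left ((mul_le_mul_of_nonneg_left c6 d0.le).trans h2) (by positivity)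
  have c8 : a * (2 * (ε * δ / (8 * a)) * B) = ε / 4 * (δ * B) := by field_simp; ring
  have c9 := mul_le_mul_of_nonneg_left h2 (by positivity : 0 ≤ ε / 4)
  push_cast at c3
  refine le_of_mul_le_mul_left ?_ c1
  change _ ≤ H * ∑ w, Real.negMulLog (μ w)
  have c10 : (L : ℝ) / 2 * Real.log 2 - ε = a - 3 * ε / 4 := by rw [ha]; ring
  rw [c10]
  nlinarith

end Pool.Agent.Lib.MP_e486a8_co
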