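import Mathlib

/-!
No card is on top twice in a window of times after a power of two.
-/

namespace Pool.Agent.Lib.MP_e486a8_co

/-- A sequence of positions, counted from the top or from the bottom. -/
structure GO (m : ℕ) (a : ℕ → ℤ) : Prop where
  bd : ∀ n, m ≤ n → 1 ≤ a n ∧ a n ≤ 2 * n + 4
  step : ∀ n, m ≤ n → a (n + 1) = 2 * a n ∨ a (n + 1) = 2 * a n - (2 * n + 3)

variable {m j n D : ℕ} {a : ℕ → ℤ}

theorem GO.compl (h : GO m a) : GO m fun n => 2 * n + 5 - a n := by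
  refine ⟨fun n hn => ?_, fun n hn => ?_⟩
  · have := h.bd n hn
    omega
  · have := h.step n hn
    push_cast
    omega

theorem GO.pow (h : GO m a) (hn : m ≤ n) (h1 : a n = 1) (hj : 2 ^ j ≤ n) :
    ∀ s ≤ j, a (n + s) = 2 ^ s := by
  intro s
  induction s with
  | zero => exact fun _ => by simpa using h1
  | succ s ih =>
    intro hs
    have a1 := h.step (n + s) (by omega)
    have a2 := (h.bd (n + s + 1) (by omega)).1
    have a3 : 2 ^ s ≤ n := (Nat.pow_le_pow_right two_pos (by omega)).trans hj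
    have a4 : (2 : ℤ) ^ s ≤ n := by exact_mod_cast a3
    rw [ih (by omega)] at a1
    rw [← add_assoc, pow_succ]
    push_cast at a1
    omega

theorem GO.digits (h : GO m a) (hn : m ≤ n) (hj : 2 ^ j ≤ n)
    (hD : 2 * (n + (j + 1)) + 1 ≤ 2 ^ (j + 1) + D) : ∀ i ≤ j + 1, ∃ A B : ℤ,
      a (n + i) = 2 ^ i * a n - 2 ^ (j + 1) * A - B ∧ 0 ≤ A ∧ 0 ≤ B ∧ B ≤ D * A ∧
        B % 2 = A % 2 := by
  intro i
  induction i with
  | zero => exact fun _ => ⟨0, 0, by simp⟩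
  | succ i ih =>
    intro hi
    obtain ⟨A, B, e, h1, h2, h3, h4⟩ := ih (by omega)
    have a1 : (2 : ℤ) ^ j ≤ n := by exact_mod_cast hj
    have a2 : 2 * ((n : ℤ) + (j + 1)) + 1 ≤ 2 ^ (j + 1) + D := by exact_mod_cast hD
    have a3 : (2 : ℤ) ^ (j + 1) = 2 * 2 ^ j := pow_succ' _ _
    rw [← add_assoc]
    rcases h.step (n + i) (by omega) with s | s <;> rw [s, e]
    · exact ⟨2 * A, 2 * B, by ring, by omega, by omega, by linarith, by omega⟩
    · refine ⟨2 * A + 1, 2 * B + (2 * (n + i) + 3 - 2 ^ (j + 1)), by push_cast; ring, by omega,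
        by omega, ?_, by omega⟩
      have : (i : ℤ) ≤ j := by omega
      linarith

theorem GO.cycle (h : GO m a) (hn : m ≤ n) (hj : 2 ^ j ≤ n)
    (hD : 2 * (n + (j + 1)) + 1 ≤ 2 ^ (j + 1) + D) {X : ℤ} (h1 : a n % 2 = 1) (h2 : a n ≤ X)
    (h3 : D * X + 4 ≤ 2 ^ j) :
    (2 * (n + (j + 1) : ℕ) + 5 - a (n + (j + 1))) % 2 = 1 ∧
      5 ≤ 2 * (n + (j + 1) : ℕ) + 5 - a (n + (j + 1)) ∧
      2 * (n + (j + 1) : ℕ) + 5 - a (n + (j + 1)) ≤ D * X + 4 := by
  obtain ⟨A, B, e, b1, b2, b3, b4⟩ := h.digits hn hj hD (j + 1) le_rfl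
  have a0 := h.bd (n + (j + 1)) (by omega)
  have a1 : (2 : ℤ) ^ j ≤ n := by exact_mod_cast hj
  have a2 : 2 * ((n : ℤ) + (j + 1)) + 1 ≤ 2 ^ (j + 1) + D := by exact_mod_cast hD
  have a3 : (2 : ℤ) ^ (j + 1) = 2 * 2 ^ j := pow_succ' _ _
  have a4 : (0 : ℤ) < 2 ^ j := by positivity
  have D0 : (0 : ℤ) ≤ D := by positivity
  rw [a3] at e a2
  push_cast at a0 ⊢
  have c1 : A + 1 ≤ a n := by
    by_contra hc
    nlinarith [mul_nonneg a4.le (by omega : 0 ≤ A - a n)]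
  have c2 : D * (A + 1) ≤ D * X := mul_le_mul_of_nonneg_left (c1.trans h2) D0
  have c3 : a n = A + 1 := by
    by_contra hc
    nlinarith [mul_nonneg a4.le (by omega : 0 ≤ a n - A - 2)]
  have c4 : a (n + (j + 1)) = 2 * 2 ^ j - B := by rw [e, c3]; ring
  refine ⟨by omega, by omega, by linarith⟩

theorem GO.window {W : ℕ} (h : GO m a) (h1 : a m = 1) (hj : 2 ^ j ≤ m)
    (hW : (2 * W + 2 * j + 5) ^ (W / (j + 1) + 1) ≤ 2 ^ j) {M : ℕ} (hm : m < M)
    (hM : M ≤ 2 ^ j + W) : a M ≠ 1 := by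
  obtain ⟨D, hD⟩ : ∃ D, D = 2 * W + 2 * j + 1 := ⟨_, rfl⟩
  rw [show 2 * W + 2 * j + 5 = D + 4 by omega] at hW
  have key : ∀ k, m + k * (j + 1) < M → ∀ n, n = m + (k + 1) * (j + 1) →
      (a n % 2 = 1 ∧ 5 ≤ a n ∧ a n ≤ (D + 4) ^ (k + 1)) ∨
        ((2 * n + 5 - a n) % 2 = 1 ∧ 2 * n + 5 - a n ≤ (D + 4) ^ (k + 1)) := by
    intro k
    have pw : ∀ k, m + k * (j + 1) < M →
        (D : ℤ) * (D + 4) ^ k + 4 ≤ (D + 4) ^ (k + 1) ∧ ((D : ℤ) + 4) ^ (k + 1) ≤ 2 ^ j := by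
      intro k hk
      have b1 : (1 : ℤ) ≤ (D + 4) ^ k := one_le_pow₀ (by omega)
      refine ⟨by rw [pow_succ]; nlinarith, ?_⟩
      have b2 : k ≤ W / (j + 1) := (Nat.le_div_iff_mul_le (by omega)).2 (by omega)
      have b3 : (D + 4) ^ (k + 1) ≤ 2 ^ j :=
        (Nat.pow_le_pow_right (by omega) (by omega)).trans hW
      exact_mod_cast b3
    induction k with
    | zero =>
      rintro hk _ rfl
      have := h.cycle (j := j) (D := D) (X := (D + 4) ^ 0) le_rfl hj (by rw [pow_succ]; omega)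
        (by omega) (by simp [h1]) ((pw 0 hk).1.trans (pw 0 hk).2)
      rw [zero_add, one_mul]
      exact Or.inr ⟨this.1, this.2.2.trans (pw 0 hk).1⟩
    | succ k ih =>
      rintro hk _ rfl
      have e : m + (k + 1 + 1) * (j + 1) = m + (k + 1) * (j + 1) + (j + 1) := by ring
      have e2 : k * (j + 1) ≤ (k + 1) * (j + 1) := Nat.mul_le_mul_right _ (by omega)
      rw [e]
      rcases ih (by omega) _ rfl with b | b
      · have := h.cycle (j := j) (D := D) (n := m + (k + 1) * (j + 1)) (by omega) (by omega)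
          (by rw [pow_succ]; omega) b.1 b.2.2 ((pw _ hk).1.trans (pw _ hk).2)
        exact Or.inr ⟨this.1, this.2.2.trans (pw _ hk).1⟩
      · have := h.compl.cycle (j := j) (D := D) (n := m + (k + 1) * (j + 1)) (by omega) (by omega)
          (by rw [pow_succ]; omega) b.1 b.2 ((pw _ hk).1.trans (pw _ hk).2)
        simp only [sub_sub_cancel] at this
        exact Or.inl ⟨this.1, this.2.1, this.2.2.trans (pw _ hk).1⟩
  intro hM1
  set k := (M - m - 1) / (j + 1) with hk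
  have d1 := Nat.div_add_mod' (M - m - 1) (j + 1)
  have d2 := Nat.mod_lt (M - m - 1) (by omega : 0 < j + 1)
  rw [← hk] at d1
  obtain ⟨s, hs, e⟩ : ∃ s ≤ j, M + s = m + (k + 1) * (j + 1) :=
    ⟨j - (M - m - 1) % (j + 1), by omega, by rw [add_mul]; omega⟩
  have d3 := h.pow hm.le hM1 (by omega : 2 ^ j ≤ M) s hs
  have d4 : (2 : ℤ) ^ s ≤ 2 ^ j := pow_le_pow_right₀ (by norm_num) hs
  have d5 : (2 : ℤ) ^ j ≤ (M + s : ℕ) := by exact_mod_cast (by omega : 2 ^ j ≤ M + s)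
  rcases key k (by omega) _ e with b | b <;> rw [d3] at b
  · cases s with
    | zero => omega
    | succ s => rw [pow_succ] at b; omega
  · have b2 : k ≤ W / (j + 1) := (Nat.le_div_iff_mul_le (by omega)).2 (by omega)
    have b3 : (D + 4) ^ (k + 1) ≤ 2 ^ j :=
      (Nat.pow_le_pow_right (by omega) (by omega)).trans hW
    have b4 : ((D : ℤ) + 4) ^ (k + 1) ≤ 2 ^ j := by exact_mod_cast b3
    omega

theorem size {ε : ℝ} (hε : 0 < ε) : ∀ᶠ N : ℕ in Filter.atTop, ∃ j W : ℕ, N ≤ 2 ^ j ∧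
    2 ^ j + W ≤ 3 * N ∧ (2 * W + 2 * j + 5) ^ (W / (j + 1) + 1) ≤ 2 ^ j ∧
    (1 / 2 - ε) * Real.logb 2 N ^ 2 / Real.logb 2 (Real.logb 2 N) ≤ (W + 1 : ℕ) := by
  have t1 : Filter.Tendsto (fun N : ℕ => Real.logb 2 N) Filter.atTop Filter.atTop :=
    (Real.tendsto_logb_atTop one_lt_two).comp tendsto_natCast_atTop_atTop
  have t2 : ∀ᶠ x : ℝ in Filter.atTop, Real.logb 2 x ≤ ε * x := by
    filter_upwards [(Real.isLittleO_logb_id_atTop (b := 2)).bound hε,
      Filter.eventually_ge_atTop (0 : ℝ)] with x h1 h2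
    rw [id, Real.norm_of_nonneg h2] at h1
    exact (le_abs_self _).trans h1
  have t3 : ∀ᶠ N : ℕ in Filter.atTop, Real.logb 2 N ^ 2 ≤ N := by
    have := ((Real.isLittleO_pow_logb_id_atTop (b := 2) (n := 2)).bound one_pos)
    filter_upwards [tendsto_natCast_atTop_atTop.eventually this] with N h1
    rw [id, one_mul, Real.norm_of_nonneg (Nat.cast_nonneg N)] at h1
    exact (le_abs_self _).trans h1
  filter_upwards [t1.eventually t2, t1.eventually_ge_atTop 8, t3, Filter.eventually_ge_atTop 2]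
    with N h1 h2 h3 h4
  set x := Real.logb 2 N with hx
  set y := Real.logb 2 x with hy
  have x0 : 0 < x := by linarith
  have y2 : 2 ≤ y := (Real.le_logb_iff_rpow_le one_lt_two x0).2 (by norm_num; linarith)
  have N0 : (0 : ℝ) < N := by positivity
  have j1 := Nat.le_pow_clog one_lt_two N
  have j2 := Nat.pow_pred_clog_lt_self one_lt_two (x := N) (by omega)
  have j3 := Nat.clog_pos one_lt_two (n := N) (by omega)
  obtain ⟨j, hj⟩ : ∃ j, Nat.clog 2 N = j + 1 := ⟨Nat.clog 2 N - 1, by omega⟩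
  rw [hj] at j1 j2
  rw [Nat.pred_succ] at j2
  have j4 : x ≤ (j + 1 : ℕ) := (Real.logb_le_iff_le_rpow one_lt_two N0).2 (by
    rw [Real.rpow_natCast]; exact_mod_cast j1)
  have j5 : (j : ℝ) ≤ x := (Real.le_logb_iff_rpow_le one_lt_two N0).2 (by
    rw [Real.rpow_natCast]; exact_mod_cast j2.le)
  rcases le_or_gt (1 / 2 - ε) 0 with e0 | e0
  · refine ⟨j + 1, 0, j1, by rw [pow_succ]; omega, ?_, le_trans (div_nonpos_of_nonpos_of_nonneg
      (mul_nonpos_of_nonpos_of_nonneg e0 (by positivity)) (by linarith)) (by positivity)⟩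
    have a0 : (7 : ℝ) ≤ j := by push_cast at j4; linarith
    have a1 : 7 ≤ j := by exact_mod_cast a0
    obtain ⟨i, rfl⟩ : ∃ i, j = i + 7 := ⟨j - 7, by omega⟩
    have := @Nat.lt_two_pow_self i
    rw [Nat.zero_div, zero_add, pow_one, show i + 7 + 1 = i + 8 from rfl, pow_add]
    omega
  set z := (1 / 2 - ε) * x ^ 2 / y with hz
  have z0 : 0 ≤ z := by positivity
  have z1 : (⌊z⌋₊ : ℝ) ≤ z := Nat.floor_le z0
  have z2 : z * y = (1 / 2 - ε) * x ^ 2 := div_mul_cancel₀ _ (by linarith)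
  have z3 : z ≤ x ^ 2 / 4 := by nlinarith [sq_nonneg x]
  refine ⟨j + 1, ⌊z⌋₊, j1, ?_, ?_, by push_cast; exact (Nat.lt_floor_add_one z).le⟩
  · have a0 : (⌊z⌋₊ : ℝ) ≤ N := by linarith [sq_nonneg x]
    have : ⌊z⌋₊ ≤ N := by exact_mod_cast a0
    rw [pow_succ]
    omega
  · generalize ⌊z⌋₊ = W at z1
    have a1 : ((2 * W + 2 * (j + 1) + 5 : ℕ) : ℝ) ≤ x ^ 2 := by
      push_cast
      nlinarith
    have a2 : ((W / (j + 1 + 1) : ℕ) : ℝ) * x ≤ z := by
      have b1 : ((W / (j + 1 + 1) * (j + 1 + 1) : ℕ) : ℝ) ≤ W := by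
        exact_mod_cast Nat.div_mul_le_self _ _
      push_cast at b1 j4
      nlinarith [Nat.cast_nonneg (α := ℝ) (W / (j + 1 + 1))]
    generalize W / (j + 1 + 1) = k at a2
    have a3 : x ^ 2 = 2 ^ (2 * y) := by
      rw [mul_comm, Real.rpow_mul (by norm_num), hy, Real.rpow_logb two_pos (by norm_num) x0,
        Real.rpow_two]
    have a4 : 2 * y * (k + 1 : ℕ) ≤ (j + 1 : ℕ) := by
      refine le_trans (le_of_mul_le_mul_right ?_ x0) j4
      push_cast
      nlinarith [mul_le_mul_of_nonneg_left a2 (by linarith : 0 ≤ y),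
        mul_le_mul_of_nonneg_right h1 x0.le]
    have a5 : ((2 * W + 2 * (j + 1) + 5 : ℕ) : ℝ) ^ (k + 1) ≤ 2 ^ (j + 1) := by
      refine (pow_le_pow_left₀ (by positivity) a1 _).trans ?_
      rw [a3, ← Real.rpow_natCast, ← Real.rpow_mul (by norm_num), ← Real.rpow_natCast]
      exact Real.rpow_le_rpow_of_exponent_le one_le_two a4
    exact_mod_cast a5

end Pool.Agent.Lib.MP_e486a8_co
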